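import Pool.Agent.W_26e041_h61.MachC
import Pool.Agent.W_26e041_h61.CoreG1
import Pool.Agent.W_26e041_h61.CoreG2
import Pool.Agent.W_26e041_h61.CoreC1
import Pool.Agent.W_26e041_h61.CoreC2

/-!
Helper lemmas for `core` (MP_26e041_co).
-/

namespace EPG26

variable {V : Type*} [DecidableEq V]

/-! ### geometry -/

theorem CD1_sw {Γ : Dr V} {D D' : Cov} {S : Set V} {o : Bool} {l a b : ℚ}
    (h : SW Γ D S o l a b) (hD : D ≤ D') : SW Γ D' S o l a b :=
  fun x h1 h2 => ⟨hD o l (h x h1 h2).1, (h x h1 h2).2⟩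

theorem CD1_NSt_mono {P P' : V → Cov → Prop} {Γ : Dr V} {U : Bool → Finset ℚ} {D D' : Cov}
    {A B : ℚ} {W : List (Rec V)} {a0 : V} {X0 u : ℚ} {L : List (Rec V)} {b0 : V} {Y0 yu : ℚ}
    (h : NSt P Γ U D A B W a0 X0 u L b0 Y0 yu) (hD : D ≤ D')
    (hP : ∀ v, v ∈ rv W ∨ v ∈ rv L → ∀ C, P v C → P' v C) :
    NSt P' Γ U D' A B W a0 X0 u L b0 Y0 yu where
  ordW := h.ordW
  ordB := h.ordB
  huX := h.huX
  hyY := h.hyY
  white := fun r hr => by
    obtain ⟨s, hs, hp⟩ := h.white r hr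
    exact ⟨s, hs, (hp.mono_D (fun x _ _ hx => hD _ _ hx) (fun x _ _ hx => hD _ _ hx)).mono_P
      (hP r.v (Or.inl (List.mem_map_of_mem hr)))⟩
  black := fun r hr => by
    obtain ⟨s, hs, hp⟩ := h.black r hr
    exact ⟨s, hs, (hp.mono_D (fun x _ _ hx => hD _ _ hx) (fun x _ _ hx => hD _ _ hx)).mono_P
      (hP r.v (Or.inr (List.mem_map_of_mem hr)))⟩
  wbase := CD1_sw h.wbase hD
  bbase := CD1_sw h.bbase hD

theorem CD1_CIn_mono {P P' : V → Cov → Prop} {Γ : Dr V} {U : Bool → Finset ℚ} {D : Cov}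
    {A B : ℚ} {L : List (Rec V)} {d : V} {Xd Y0 : ℚ} {a0 : V} {X0 T₁ : ℚ}
    (h : CIn P Γ U D A B L d Xd Y0 a0 X0 T₁) (hP : ∀ v ∈ rv L, ∀ C, P v C → P' v C) :
    CIn P' Γ U D A B L d Xd Y0 a0 X0 T₁ where
  n := CD1_NSt_mono h.n le_rfl (by
    rintro v (hv | hv)
    · exact absurd hv List.not_mem_nil
    · exact hP v hv)
  pl := h.pl
  lt := h.lt
  YT := h.YT
  rowD := h.rowD
  row := h.row
  dcol := h.dcol
  acol := h.acol

/-- growth elsewhere -/
theorem CD1_CIn_grow {P : V → Cov → Prop} {Γ Γ' : Dr V} {U U' : Bool → Finset ℚ} {D D₁ : Cov}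
    {K : Set V} {A B : ℚ} {L : List (Rec V)} {d : V} {Xd Y0 : ℚ} {a0 : V} {X0 T₁ : ℚ}
    (h : CIn P Γ U D A B L d Xd Y0 a0 X0 T₁) (hg : Grow Γ Γ' D₁ K) (hU : ∀ o, U o ⊆ U' o)
    (hK : ∀ r ∈ L, r.v ∉ K) (h1 : ∀ r ∈ L, ∀ x, x ∉ D₁ false r.c) (h2 : ∀ x, x ∉ D₁ false Y0)
    (h3 : ∀ x, B < x → x ∉ D₁ true Xd) (h4 : ∀ x, x ∉ D₁ true X0) :
    CIn P Γ' U' D A B L d Xd Y0 a0 X0 T₁ where
  n := h.n.grow hg hU (fun r hr => absurd hr List.not_mem_nil) hK
    (fun r hr => absurd hr List.not_mem_nil)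
    (fun r hr s _ hp x hx => ⟨fun _ => h1 r hr x, fun hx' => by
      have h5 := (hp.plain (h.pl r hr)).2.1
      exact absurd (hx.trans hx') (not_le.2 h5)⟩)
    (fun x _ _ => h4 x) (fun x _ _ => h2 x)
  pl := h.pl
  lt := h.lt
  YT := h.YT
  rowD := h.rowD
  row := fun x hx1 hx2 v hv => by
    rcases hg.new v _ _ x hv with h5 | ⟨-, h5⟩
    · exact h.row x hx1 hx2 v h5
    · exact h2 x h5
  dcol := h.dcol.grow hg fun x hx _ => h3 x hx
  acol := h.acol.grow hg fun x _ _ => h4 x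

theorem CD1_lastv : ∀ (L : List (Rec V)) (b : V), ∃ nl, b :: rv L = nl ++ [lastv L b]
  | [], b => ⟨[], rfl⟩
  | r :: L, b => by
    obtain ⟨nl, h⟩ := CD1_lastv L r.v
    refine ⟨b :: nl, ?_⟩
    show b :: (r.v :: rv L) = (b :: nl) ++ [lastv L r.v]
    rw [h]
    rfl

/-- a height between all lines and the limit -/
theorem CD1_between : ∀ (L : List (Rec V)) (lo hi : ℚ), OrdL lo L hi →
    ∃ y, lo < y ∧ y < hi ∧ ∀ r ∈ L, r.c < y
  | [], lo, hi, h => by
    obtain ⟨y, h1, h2⟩ := exists_between (show lo < hi from h)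
    exact ⟨y, h1, h2, fun r hr => absurd hr List.not_mem_nil⟩
  | r :: L, lo, hi, h => by
    obtain ⟨h1, h2, h3⟩ := h
    obtain ⟨y, h4, h5, h6⟩ := CD1_between L r.c hi h3
    refine ⟨y, (h1.trans h2).trans h4, h5, fun q hq => ?_⟩
    rcases List.mem_cons.1 hq with rfl | hq
    · exact h4
    · exact h6 q hq

theorem CD1_pairs3 {R : V → V → Prop} (hs : ∀ u v, R u v → R v u) {a b c : V} (hab : R a b)
    (hac : R a c) (hbc : R b c) : ∀ p ∈ ({a, b, c} : Finset V), ∀ q ∈ ({a, b, c} : Finset V),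
      p ≠ q → R p q := by
  intro p hp q hq hne
  simp only [Finset.mem_insert, Finset.mem_singleton] at hp hq
  rcases hp with rfl | rfl | rfl <;> rcases hq with rfl | rfl | rfl <;>
    first
      | exact absurd rfl hne
      | assumption
      | exact hs _ _ (by assumption)

/-! ### lists and own parts -/

theorem CD1_own_verts {J : Finset V → Finset V} {l : List V} {F : Finset (Finset V)} {v : V}
    (h : v ∈ Own J l F) : (v ∉ l ∧ ∃ f ∈ F, v ∈ f) ∨ ∃ f ∈ F, v ∈ J f := by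
  rcases h with ⟨h1, h2⟩ | h
  · left
    refine ⟨h2, ?_⟩
    rcases Finset.mem_union.1 h1 with h3 | h3
    · exact absurd (List.mem_toFinset.1 h3) h2
    · obtain ⟨g, hg, hvg⟩ := Finset.mem_biUnion.1 h3
      exact ⟨g, hg, hvg⟩
  · exact Or.inr h

theorem CD1_mem_verts {l : List V} {F : Finset (Finset V)} {v : V} :
    v ∈ verts l F ↔ v ∈ l ∨ ∃ f ∈ F, v ∈ f := DiscE_mem

/-- a boundary vertex of a region with at least three boundary vertices is in no content -/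
theorem CD1_notJ {G : SimpleGraph V} {T : Finset V} {Fs : Finset (Finset V)}
    {J : Finset V → Finset V} (hc : Ctx G T Fs J) {l : List V} {F : Finset (Finset V)}
    (h : Reg T Fs l F) (hl : 3 ≤ l.length) {v : V} (hv : v ∈ l) {f : Finset V} (hf : f ∈ Fs) :
    v ∉ J f := by
  intro hj
  obtain ⟨g, hg, hvg⟩ := Finset.mem_biUnion.1 (h.disc.mem_biUnion hl hv)
  exact MachB4_sep hc hf (h.sub hg) hj hvg

theorem CD1_rzfl {Ex : V → V → Prop} {Γ : Dr V} {u v : V} :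
    Rz Ex (flD Γ) u v ↔ Rz Ex Γ u v := by
  unfold Rz
  rw [Ov.fl]

theorem CD1_chain_rev {R : V → V → Prop} (hs : ∀ u v, R u v → R v u) {l : List V}
    (h : List.IsChain R l) : List.IsChain R l.reverse := by
  rw [List.isChain_reverse]
  exact h.imp fun a b hab => hs _ _ hab

end EPG26
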