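import Pool.Agent.W_26e041_h39.CD1

/-!
The flip without inner neighbours, combinatorial part (for `core`, MP_26e041_co).
-/

namespace EPG26

variable {V : Type*} [DecidableEq V]

/-- the state after the first run -/
structure CR (G : SimpleGraph V) (T : Finset V) (Fs : Finset (Finset V))
    (J : Finset V → Finset V) (Ex : V → V → Prop) (Γ : Dr V) (U : Bool → Finset ℚ) (D : Cov)
    (A B : ℚ) (N₁ : Rec V) (L : List (Rec V)) (d : V) (Xd Y0 : ℚ) (a0 : V) (X0 T₁ Λ : ℚ)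
    (be : List V) (F : Finset (Finset V)) (l₀ l₁ : ℚ) : Prop where
  wd : Wd G Γ U
  adm : Adm U D
  cin : CIn (fun _ C => IsPath3 C) Γ U D A B (N₁ :: L) d Xd Y0 a0 X0 T₁
  comb : NC T Fs (rv (N₁ :: L) ++ [d]) [a0] be F
  und : ∀ v ∈ Own J (lN [] a0 (N₁ :: L) d be) F, Undrawn Γ v
  rL : List.IsChain (Rz Ex Γ) (rv (N₁ :: L) ++ [d])
  hl : l₀ < l₁
  hlA : l₁ ≤ A
  hz : Solo Γ {lastv (N₁ :: L) d, d} false Y0 l₀ l₁
  rl : ∀ r ∈ N₁ :: L, r.c ≠ Λ ∧ r.c ∈ U false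
  yl : Y0 ≠ Λ
  yU : Y0 ∈ U false
  xU : X0 ∈ U true
  xdU : Xd ∈ U true

/-- the vertices which are not finished before the flip -/
def CK (J : Finset V → Finset V) (a0 : V) (N₁ : Rec V) (L : List (Rec V)) (d : V)
    (be : List V) (F : Finset (Finset V)) : Set V :=
  {v | v ∈ KSet J (lN [] a0 (N₁ :: L) d be) F [] (N₁ :: L) ∨ v ∈ be}

theorem CR.reg {G : SimpleGraph V} {T : Finset V} {Fs : Finset (Finset V)}
    {J : Finset V → Finset V} {Ex : V → V → Prop} {Γ : Dr V} {U : Bool → Finset ℚ} {D : Cov}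
    {A B : ℚ} {N₁ : Rec V} {L : List (Rec V)} {d : V} {Xd Y0 : ℚ} {a0 : V} {X0 T₁ Λ : ℚ}
    {be : List V} {F : Finset (Finset V)} {l₀ l₁ : ℚ}
    (h : CR G T Fs J Ex Γ U D A B N₁ L d Xd Y0 a0 X0 T₁ Λ be F l₀ l₁) :
    Reg T Fs (lN [] a0 (N₁ :: L) d be) F := h.comb.reg

theorem CR.len {a0 : V} {N₁ : Rec V} {L : List (Rec V)} {d : V} {be : List V} :
    3 ≤ (lN [] a0 (N₁ :: L) d be).length := by
  simp only [lN, rv, List.map_cons, List.length_append, List.length_cons, List.length_reverse,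
    List.length_nil, List.map_nil]
  omega

theorem CD2_mem {a0 v : V} {N₁ : Rec V} {L : List (Rec V)} {d : V} {be : List V} :
    v ∈ lN [] a0 (N₁ :: L) d be ↔ v ∈ rv (N₁ :: L) ∨ v = d ∨ v ∈ be ∨ v = a0 := by
  simp only [lN, List.mem_append, List.mem_reverse, List.mem_singleton, rv, List.map_nil,
    List.not_mem_nil, false_or]
  tauto

theorem CD2_nd {G : SimpleGraph V} {T : Finset V} {Fs : Finset (Finset V)}
    {J : Finset V → Finset V} {Ex : V → V → Prop} {Γ : Dr V} {U : Bool → Finset ℚ} {D : Cov}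
    {A B : ℚ} {N₁ : Rec V} {L : List (Rec V)} {d : V} {Xd Y0 : ℚ} {a0 : V} {X0 T₁ Λ : ℚ}
    {be : List V} {F : Finset (Finset V)} {l₀ l₁ : ℚ}
    (h : CR G T Fs J Ex Γ U D A B N₁ L d Xd Y0 a0 X0 T₁ Λ be F l₀ l₁) :
    (rv (N₁ :: L) ++ d :: a0 :: be).Nodup := by
  have h1 : (rv (N₁ :: L) ++ [d] ++ be ++ [a0]).Nodup := h.comb.reg.disc.nodup
  have h2 : (rv (N₁ :: L) ++ d :: a0 :: be).Perm (rv (N₁ :: L) ++ [d] ++ be ++ [a0]) := by
    rw [List.append_assoc, List.append_assoc]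
    refine List.Perm.append_left _ ?_
    refine List.Perm.cons d ?_
    exact (List.perm_append_singleton a0 be).symm
  exact h2.nodup_iff.2 h1

end EPG26
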