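import Pool.Agent.W_26e041_h39.CD2

/-!
The flip without inner neighbours, combinatorial part (for `core`, MP_26e041_co).
-/

namespace EPG26

variable {V : Type*} [DecidableEq V]

theorem CD3_band {D : Cov} {U U' : Bool → Finset ℚ} {a b b' : ℚ} (hU : ∀ o, U o ⊆ U' o)
    (h : b ≤ b') : D ⊓ (nl U' ⊔ band a b) ≤ D ⊓ (nl U ⊔ band a b') := by
  rintro o l x ⟨h1, h2⟩
  refine ⟨h1, ?_⟩
  rcases h2 with h2 | h2
  · left
    exact fun h3 => h2 (hU o h3)
  · right
    cases o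
    · have h3 : a ≤ l ∧ l ≤ b := CoreG2_bandh.1 h2
      exact CoreG2_bandh.2 ⟨h3.1, h3.2.trans h⟩
    · have h3 : a ≤ x ∧ x ≤ b := CoreG2_bandv.1 h2
      exact CoreG2_bandv.2 ⟨h3.1, h3.2.trans h⟩

theorem CD3_adm {D : Cov} {U U' : Bool → Finset ℚ} {C : Cov} (hA : Adm U D)
    (hU : ∀ o, U o ⊆ U' o) : Adm U' (D ⊓ (nl U' ⊔ C)) := by
  intro o l x hx
  exact ⟨hA o l (fun h => hx (hU o h)), Or.inl hx⟩

theorem CD_A {G : SimpleGraph V} {T : Finset V} {Fs : Finset (Finset V)}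
    {J : Finset V → Finset V} {Ex : V → V → Prop} (hc : Ctx G T Fs J)
    (hE : ∀ u v, Ex u v → Ex v u) {P : V → Cov → Prop} {Γ : Dr V} {U : Bool → Finset ℚ} {D : Cov}
    {A B : ℚ} {N₁ : Rec V} {L : List (Rec V)} {d : V} {Xd Y0 : ℚ} {a0 : V} {X0 T₁ Λ : ℚ}
    {b₁ : V} {be : List V} {F : Finset (Finset V)} {l₀ l₁ : ℚ}
    (h : CR G T Fs J Ex Γ U D A B N₁ L d Xd Y0 a0 X0 T₁ Λ (b₁ :: be) F l₀ l₁)
    {T₂ Yt yl y₁ sh a : ℚ} {qs : List (Pl V)} (hqs : qs.map Pl.v = b₁ :: be)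
    (hq : ∀ p ∈ qs, Placed Γ U D Λ Yt T₁ T₂ yl y₁ sh p ∧ p.k = Kind.conn)
    (ho : OrdP a qs X0) (ha : Xd < a) (hP : ∀ p ∈ qs, ∀ C, Ext Λ p.es C → P p.v C)
    (hPI : ∀ v, v ∉ b₁ :: be → ∀ C, IsPath3 C → P v C)
    (h1 : B < yl) (h2 : yl < N₁.g) (h3 : sh ≤ yl) (h3' : Λ < yl) (h4 : Y0 < y₁) (h5 : y₁ < T₁)
    (h6 : T₁ < T₂) (hch : Chless F (d :: (b₁ :: be) ++ [a0]))
    (hov : List.IsChain (Rz Ex Γ) (d :: (b₁ :: be) ++ [a0]))
    (hf : ({d, lastv (N₁ :: L) d, b₁} : Finset V) ∈ F) :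
    Closed G P J Ex Γ U (D ⊓ (nl U ⊔ band yl T₁)) F (CK J a0 N₁ L d (b₁ :: be) F) := by
  have hreg := h.reg
  have hlen : 3 ≤ (lN [] a0 (N₁ :: L) d (b₁ :: be)).length := CR.len
  obtain ⟨nll, hnl⟩ := CD1_lastv L N₁.v
  have hnl' : rv (N₁ :: L) = nll ++ [lastv (N₁ :: L) d] := hnl
  generalize hm : lastv (N₁ :: L) d = m at *
  have hcomb : NC T Fs (nll ++ [m] ++ [d]) [a0] (b₁ :: be) F := by
    rw [← hnl']
    exact h.comb
  obtain ⟨F', hF, hfn, hN⟩ := NC.flip0 hcomb hch hf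
  have hFF : F' ⊆ F := by
    rw [hF]
    exact Finset.subset_insert _ _
  have hfs : ({d, m, b₁} : Finset V) ∈ Fs := hreg.sub hf
  obtain ⟨q, qs', rfl⟩ : ∃ q qs', qs = q :: qs' := by
    cases qs with
    | nil => simp at hqs
    | cons q qs' => exact ⟨q, qs', rfl⟩
  have hqv : q.v = b₁ := by
    simp only [List.map_cons, List.cons.injEq] at hqs
    exact hqs.1
  have hnd := CD2_nd h
  have hadj0 : AdjF F N₁.v a0 := by
    have h7 : Disc (N₁.v :: ((rv L ++ [d] ++ (b₁ :: be)) ++ [a0])) F := by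
      have h8 := hreg.disc
      have h9 : lN [] a0 (N₁ :: L) d (b₁ :: be) =
          N₁.v :: ((rv L ++ [d] ++ (b₁ :: be)) ++ [a0]) := by simp [lN, rv]
      rw [h9] at h8
      exact h8
    exact h7.root_adj (by simp)
  have hadj : G.Adj N₁.v a0 := by
    obtain ⟨hne, g, hg, hg1, hg2⟩ := hadj0
    exact hc.adj g (hreg.sub hg) _ hg1 _ hg2 hne
  -- the step
  have hmemJ : ∀ v ∈ J {d, m, b₁}, v ∈ Own J (lN [] a0 (N₁ :: L) d (b₁ :: be)) F := fun v hv =>
    Or.inr ⟨_, hf, hv⟩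
  have hlist : ∀ v, v ∈ rv (N₁ :: L) ++ d :: a0 :: (q :: qs').map Pl.v →
      v ∈ lN [] a0 (N₁ :: L) d (b₁ :: be) := by
    intro v hv
    rw [hqs] at hv
    rw [CD2_mem]
    simp only [List.mem_append, List.mem_cons] at hv ⊢
    tauto
  obtain ⟨Γ3, U3, A3, W', L3, hst, hPN, hovN, hfill, hW', hL3, hpl3, hN3⟩ :=
    flip0G (P := P) (J := J {d, m, b₁}) (T₂ := T₂) (Yt := Yt) (yl := yl) (y₁ := y₁) (sh := sh)
      (a := a) (q := q) (qs := qs') h.wd h.adm
      (CD1_CIn_mono h.cin (fun v hv C hC => hPI v (fun hv' => by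
        rw [List.nodup_append] at hnd
        exact hnd.2.2 v hv v (by
          simp only [List.mem_cons] at hv' ⊢
          tauto) rfl) C hC))
      (by rw [hqs]; exact hnd) hq ho ha hP h1 h2 h3 h3' h4 h5 h6 h.hl h.hlA h.hz hadj
      (fun v hv => ⟨h.und v (hmemJ v hv), fun h7 =>
        CD1_notJ hc hreg hlen (hlist v h7) hfs hv⟩)
      (by rw [hm, hqv]; exact hc.fill _ hfs)
  obtain ⟨hn1, hn2, hn3⟩ := List.nodup_append.1 hnd
  have hd1 : d ∉ rv (N₁ :: L) := fun h7 => hn3 d h7 d (by simp) rfl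
  have ha1 : a0 ∉ rv (N₁ :: L) := fun h7 => hn3 a0 h7 a0 (by simp) rfl
  have hb1 : ∀ v ∈ b₁ :: be, v ∉ rv (N₁ :: L) := fun v hv h7 => hn3 v h7 v (by
    simp only [List.mem_cons] at hv ⊢
    tauto) rfl
  have hd2 : d ≠ a0 := by
    rintro rfl
    simp at hn2
  have hd3 : d ∉ b₁ :: be := fun h7 => (List.nodup_cons.1 hn2).1 (List.mem_cons_of_mem _ h7)
  have ha2 : a0 ∉ b₁ :: be := (List.nodup_cons.1 (List.nodup_cons.1 hn2).2).1
  have hf3 : ∀ o, U o ⊆ U3 o := hst.sub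
  have hl2 : ∀ v, v ∈ lN W' a0 L3 N₁.v [] ↔ v ∈ rv (N₁ :: L) ∨ v ∈ b₁ :: be ∨ v = a0 := by
    intro v
    simp only [lN, List.append_nil, List.mem_append, List.mem_reverse, List.mem_singleton]
    rw [hL3, hW', hqs, List.mem_reverse]
    have h7 : v ∈ rv (N₁ :: L) ↔ v = N₁.v ∨ v ∈ rv L := List.mem_cons
    rw [h7]
    constructor
    · rintro ((h8 | h8) | h8 | h8)
      · exact Or.inl (Or.inr h8)
      · exact Or.inl (Or.inl h8)
      · exact Or.inr (Or.inl h8)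
      · exact Or.inr (Or.inr h8)
    · rintro ((h8 | h8) | h8 | h8)
      · exact Or.inl (Or.inr h8)
      · exact Or.inl (Or.inl h8)
      · exact Or.inr (Or.inl h8)
      · exact Or.inr (Or.inr h8)
  have hbl : rv L3 ++ [N₁.v] = (nll ++ [m]).reverse := by
    rw [← hnl', hL3]
    show _ = (N₁.v :: rv L).reverse
    rw [List.reverse_cons]
  have hwl : rv W' ++ [a0] = b₁ :: be ++ [a0] := by rw [hW', hqs]
  have hN' : NC T Fs (rv L3 ++ [N₁.v]) (rv W' ++ [a0]) [] F' := by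
    rw [hbl, hwl]
    exact hN
  have hreg' : Reg T Fs (lN W' a0 L3 N₁.v []) F' := hN'.reg
  have hlen' : 3 ≤ (lN W' a0 L3 N₁.v []).length := by
    have h8 : (rv W').length = (be.length + 1) := by
      rw [hW', hqs]
      rfl
    simp only [lN, List.length_append, List.length_cons, List.length_reverse, List.length_nil, h8]
    omega
  have hdv : d ∉ verts (lN W' a0 L3 N₁.v []) F' := by
    intro h7
    have h8 : d ∉ lN W' a0 L3 N₁.v [] := by
      rw [hl2]
      rintro (h9 | h9 | h9)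
      · exact hd1 h9
      · exact hd3 h9
      · exact hd2 h9
    exact hfn ((hreg'.star d h7 h8).2 _ hfs (by simp))
  have hown : ∀ v ∈ Own J (lN W' a0 L3 N₁.v []) F',
      v ∈ Own J (lN [] a0 (N₁ :: L) d (b₁ :: be)) F := fun v hv =>
    MachB4_sub hFF (fun w hw hw' => by
      rw [CD2_mem] at hw'
      rw [hl2]
      rcases hw' with h7 | h7 | h7 | h7
      · exact Or.inl h7
      · rw [h7] at hw
        exact absurd hw hdv
      · exact Or.inr (Or.inl h7)
      · exact Or.inr (Or.inr h7)) hv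
  have hl12 : ∀ v, v ∈ lN W' a0 L3 N₁.v [] → v ∈ lN [] a0 (N₁ :: L) d (b₁ :: be) := by
    intro v hv
    rw [hl2] at hv
    rw [CD2_mem]
    tauto
  have hsplit : ∀ v ∈ Own J (lN [] a0 (N₁ :: L) d (b₁ :: be)) F,
      v ∈ Own J (lN W' a0 L3 N₁.v []) F' ∨ v ∈ J {d, m, b₁} := by
    intro v hv
    rcases CD1_own_verts hv with ⟨h7, g, hg, hvg⟩ | ⟨g, hg, hvg⟩
    · rw [hF, Finset.mem_insert] at hg
      rcases hg with rfl | hg
      · exfalso
        apply h7
        rw [CD2_mem]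
        simp only [Finset.mem_insert, Finset.mem_singleton] at hvg
        rcases hvg with rfl | rfl | rfl
        · exact Or.inr (Or.inl rfl)
        · left
          rw [hnl']
          simp
        · right
          right
          left
          simp
      · exact Or.inl (Or.inl ⟨CD1_mem_verts.2 (Or.inr ⟨g, hg, hvg⟩), fun h8 => h7 (hl12 v h8)⟩)
    · rw [hF, Finset.mem_insert] at hg
      rcases hg with rfl | hg
      · exact Or.inr hvg
      · exact Or.inl (Or.inr ⟨g, hg, hvg⟩)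
  have hJown : ∀ v ∈ J {d, m, b₁}, v ∉ Own J (lN W' a0 L3 N₁.v []) F' := fun v hv =>
    MachB4_content hc hreg'.sub hfs hfn hv
  have hJl : ∀ v ∈ J {d, m, b₁}, v ∉ lN [] a0 (N₁ :: L) d (b₁ :: be) := fun v hv h7 =>
    CD1_notJ hc hreg hlen h7 hfs hv
  have hrL : List.IsChain (Rz Ex Γ3) (rv (N₁ :: L) ++ [d]) := Rz.chain_mono hst.grow h.rL
  have hNG : NG G (flP P) T Fs J Ex (flD Γ3) (flU U3) (fly (D ⊓ (nl U3 ⊔ band yl y₁))) A3 (-y₁)
      W' a0 X0 X0 L3 N₁.v (-N₁.c) (-N₁.c) [] F' :=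
    { adm := Adm.fl.2 (CD3_adm h.adm hf3)
      wd := Wd.fl.2 hst.wd
      geo := hN3
      comb := hN'
      side :=
        { av := fun v _ x hx => absurd hx List.not_mem_nil
          base := fun hh => absurd rfl hh
          und := fun v hv => Undrawn.fl.2 ((h.und v (hown v hv)).grow hst.grow (by
            rintro (h7 | h7)
            · exact Reg.notMem_Own hc hreg (CD2_mem.2 (Or.inl h7)) (hown v hv)
            · exact hJown v h7 hv))
          hP := fun v hv C hC => hPI v (fun h7 => Reg.notMem_Own hc hreg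
            (CD2_mem.2 (Or.inr (Or.inr (Or.inl h7)))) (hown v hv)) (fly C) (IsPath3.fly.2 hC)
          pl := hpl3
          rW := by
            rw [hwl]
            have h7 : List.IsChain (Rz Ex Γ3) (b₁ :: be ++ [a0]) :=
              (Rz.chain_mono hst.grow hov).tail
            exact h7.imp fun _ _ h8 => CD1_rzfl.2 h8
          rL := by
            rw [hbl, ← hnl']
            exact (CD1_chain_rev (fun _ _ => Rz.symm hE) hrL.left_of_append).imp
              fun _ _ h8 => CD1_rzfl.2 h8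
          rB := fun _ => Or.inr (Ov.fl.2 hovN.symm)
          lk := fun hh => absurd rfl hh } }
  obtain ⟨Γ4, U4, hs4, hfin4, hfil4, hre4⟩ := closedN hc hE hNG
  have hs4' : Step G Γ3 U3 (D ⊓ (nl U3 ⊔ band yl y₁))
      (KSet J (lN W' a0 L3 N₁.v []) F' W' L3) (flD Γ4) (flU U4) :=
    Step.fl.1 (by rw [flD_flD, flU_flU]; exact hs4)
  have hK4 : ∀ v, v ∈ KSet J (lN W' a0 L3 N₁.v []) F' W' L3 ↔
      v ∈ Own J (lN W' a0 L3 N₁.v []) F' ∨ v ∈ b₁ :: be ∨ v ∈ rv L := by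
    intro v
    show (v ∈ Own J _ F' ∨ v ∈ rv W' ∨ v ∈ rv L3) ↔ _
    rw [hW', hqs, hL3, List.mem_reverse]
  have hN4 : N₁.v ∉ KSet J (lN W' a0 L3 N₁.v []) F' W' L3 := by
    rw [hK4]
    rintro (h7 | h7 | h7)
    · exact Reg.notMem_Own hc hreg' ((hl2 _).2 (Or.inl (by simp [rv]))) h7
    · exact hb1 _ h7 (by simp [rv])
    · exact (List.nodup_cons.1 (show (N₁.v :: rv L).Nodup from hn1)).1 h7
  have hJ4 : ∀ v ∈ J {d, m, b₁}, v ∉ KSet J (lN W' a0 L3 N₁.v []) F' W' L3 := by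
    intro v hv
    rw [hK4]
    rintro (h7 | h7 | h7)
    · exact hJown v hv h7
    · exact hJl v hv (CD2_mem.2 (Or.inr (Or.inr (Or.inl h7))))
    · exact hJl v hv (CD2_mem.2 (Or.inl (List.mem_cons_of_mem _ h7)))
  have hmono : ∀ {u v : V}, Rz Ex Γ3 u v → Rz Ex (flD Γ4) u v := fun hr => Rz.mono hs4'.grow hr
  refine ⟨flD Γ4, flU U4, ?_, ?_, ?_, ?_⟩
  · refine (hst.weaken le_rfl ?_).trans (hs4'.weaken (CD3_band hf3 h5.le) ?_)
    · rintro v (h7 | h7)
      · exact Or.inl (Or.inr (Or.inr h7))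
      · exact Or.inl (Or.inl (hmemJ v h7))
    · intro v hv
      rcases (hK4 v).1 hv with h7 | h7 | h7
      · exact Or.inl (Or.inl (hown v h7))
      · exact Or.inr h7
      · exact Or.inl (Or.inr (Or.inr (List.mem_cons_of_mem _ h7)))
  · have hfin : ∀ v, v ∈ Own J (lN W' a0 L3 N₁.v []) F' ∨ v ∈ b₁ :: be ∨ v ∈ rv L →
        P v (flD Γ4 v) := fun v hv => hfin4 v ((hK4 v).2 hv)
    rintro v ((h7 | h7 | h7) | h7)
    · rcases hsplit v h7 with h8 | h8
      · exact hfin v (Or.inl h8)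
      · rw [hs4'.grow.eq (hJ4 v h8)]
        refine hPI v (fun h9 => hJl v h8 (CD2_mem.2 (Or.inr (Or.inr (Or.inl h9))))) _ ?_
        exact (hfill v h8).1
    · exact absurd h7 List.not_mem_nil
    · rcases List.mem_cons.1 (show v ∈ N₁.v :: rv L from h7) with rfl | h8
      · rw [hs4'.grow.eq hN4]
        exact hPN
      · exact hfin v (Or.inr (Or.inr h8))
    · exact hfin v (Or.inr (Or.inl h7))
  · intro f hf'
    rw [hF, Finset.mem_insert] at hf'
    rcases hf' with rfl | hf'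
    · exact hfill.mono hs4'.grow hJ4
    · exact Filled.fl.2 (hfil4 f hf')
  · intro f hf'
    rw [hF, Finset.mem_insert] at hf'
    rcases hf' with rfl | hf'
    · refine CD1_pairs3 (fun _ _ => Rz.symm hE) ?_ ?_ ?_
      · -- `d, m`
        refine hmono (Rz.symm hE ?_)
        rw [hnl', List.append_assoc] at hrL
        have h8 := hrL.right_of_append
        exact (List.isChain_cons_cons.1 h8).1
      · -- `d, b₁`
        refine hmono (Rz.mono hst.grow ?_)
        exact (List.isChain_cons_cons.1 hov).1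
      · -- `m, b₁`
        have h8 : AdjF F' m b₁ := by
          have h9 : lN W' a0 L3 N₁.v [] = m :: ((nll.reverse ++ [a0] ++ be.reverse) ++ [b₁]) := by
            show rv L3 ++ [N₁.v] ++ [] ++ (rv W' ++ [a0]).reverse = _
            rw [hbl, hwl]
            simp
          have h10 := hreg'.disc
          rw [h9] at h10
          exact h10.root_adj (by simp)
        obtain ⟨hne, g, hg, hg1, hg2⟩ := h8
        exact CD1_rzfl.2 (hre4 g hg _ hg1 _ hg2 hne)
    · intro p hp r hr hne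
      exact CD1_rzfl.2 (hre4 f hf' p hp r hr hne)

end EPG26
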