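import Pool.Agent.W_26e041_h39.CD3

/-!
The flip with an inner neighbour, combinatorial part (for `core`, MP_26e041_co).
-/

namespace EPG26

variable {V : Type*} [DecidableEq V]

theorem CD4_topp (qb : List (Pl V)) (a : V) :
    ∃ rest, qb.map Pl.v ++ [a] = topp qb a :: rest := by
  cases qb with
  | nil => exact ⟨[], rfl⟩
  | cons q qb => exact ⟨qb.map Pl.v ++ [a], rfl⟩

theorem CD4_topv {L : List (Rec V)} {b : V} {l : List V} {v : V} (h : rv L ++ [b] = v :: l) :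
    topv L b = v := by
  cases L with
  | nil =>
    have h1 : [b] = v :: l := h
    exact (List.cons.inj h1).1
  | cons r L =>
    have h1 : r.v :: (rv L ++ [b]) = v :: l := h
    exact (List.cons.inj h1).1

theorem CD4_DA {D : Cov} {U U' : Bool → Finset ℚ} {a a' b x : ℚ} (hU : ∀ o, U o ⊆ U' o)
    (h : a ≤ a') : D ⊓ (nl U' ⊔ (band a' b ⊓ xge x)) ≤ D ⊓ (nl U ⊔ band a b) := by
  rintro o l p ⟨h1, h2⟩
  refine ⟨h1, ?_⟩
  rcases h2 with h2 | ⟨h2, -⟩
  · left
    exact fun h3 => h2 (hU o h3)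
  · right
    cases o
    · have h3 := CoreG2_bandh.1 h2
      exact CoreG2_bandh.2 ⟨h.trans h3.1, h3.2⟩
    · have h3 := CoreG2_bandv.1 h2
      exact CoreG2_bandv.2 ⟨h.trans h3.1, h3.2⟩

theorem CD_B {G : SimpleGraph V} {T : Finset V} {Fs : Finset (Finset V)}
    {J : Finset V → Finset V} {Ex : V → V → Prop} (hc : Ctx G T Fs J)
    (hE : ∀ u v, Ex u v → Ex v u) {P : V → Cov → Prop} {Γ : Dr V} {U : Bool → Finset ℚ} {D : Cov}
    {A B : ℚ} {N₁ : Rec V} {L : List (Rec V)} {d : V} {Xd Y0 : ℚ} {a0 : V} {X0 T₁ Λ : ℚ}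
    {bt ql : List V} {F : Finset (Finset V)} {l₀ l₁ : ℚ}
    (h : CR G T Fs J Ex Γ U D A B N₁ L d Xd Y0 a0 X0 T₁ Λ (bt ++ ql) F l₀ l₁)
    {T₂ Yt yl y₁ sh a : ℚ} {qa qb : List (Pl V)} (hqav : qa.map Pl.v = bt)
    (hqbv : qb.map Pl.v = ql)
    (hqa : ∀ p ∈ qa, Placed Γ U D Λ Yt T₁ T₂ yl y₁ sh p ∧ p.k = Kind.tail)
    (hqb : ∀ p ∈ qb, Placed Γ U D Λ Yt T₁ T₂ yl y₁ sh p ∧ p.k = Kind.conn)
    (ho : OrdP a (qa ++ qb) X0) (ha : Xd < a)
    (hP : ∀ p ∈ qa ++ qb, ∀ C, Ext Λ p.es C → P p.v C)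
    (hPI : ∀ v, v ∉ bt ++ ql → ∀ C, IsPath3 C → P v C)
    (h1 : B < yl) (h2 : yl < N₁.g) (h3 : sh ≤ yl) (h3' : Λ < yl)
    (h4 : ∀ r ∈ N₁ :: L, r.c < y₁) (h5 : y₁ < Yt) (h6 : Yt < Y0) (h7 : T₁ < T₂)
    (hov : List.IsChain (Rz Ex Γ) (d :: (bt ++ ql) ++ [a0]))
    {y : V} {FA FB : Finset (Finset V)} (hy : y ∈ verts (lN [] a0 (N₁ :: L) d (bt ++ ql)) F)
    (hyl : y ∉ lN [] a0 (N₁ :: L) d (bt ++ ql)) (hyd : AdjF F y d)
    (hyc : AdjF F y (topp qb a0)) (hF : F = FA ∪ FB) (hdj : Disjoint FA FB)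
    (hMA : MC T Fs [y] (bt ++ [topp qb a0]) [] [] d FA)
    (hMB : MC T Fs (y :: (ql ++ [a0])) (rv (N₁ :: L)).reverse [] [] d FB)
    (hcm : ∀ v, v ∈ verts ([y] ++ (bt ++ [topp qb a0]).reverse ++ [d]) FA →
      v ∈ verts ((y :: (ql ++ [a0])) ++ rv (N₁ :: L) ++ [d]) FB →
        v = y ∨ v = topp qb a0 ∨ v = d) :
    Closed G P J Ex Γ U (D ⊓ (nl U ⊔ band yl T₁)) F (CK J a0 N₁ L d (bt ++ ql) F) := by
  have hreg := h.reg
  have hlen : 3 ≤ (lN [] a0 (N₁ :: L) d (bt ++ ql)).length := CR.len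
  obtain ⟨rest, hrest⟩ := CD4_topp qb a0
  have hrest' : ql ++ [a0] = topp qb a0 :: rest := by
    rw [← hqbv]
    exact hrest
  generalize hcc : topp qb a0 = c at *
  have hFA : FA ⊆ F := by
    rw [hF]
    exact Finset.subset_union_left
  have hFB : FB ⊆ F := by
    rw [hF]
    exact Finset.subset_union_right
  have hnd := CD2_nd h
  obtain ⟨hn1, hn2, hn3⟩ := List.nodup_append.1 hnd
  have hcl : c ∈ lN [] a0 (N₁ :: L) d (bt ++ ql) := by
    rw [CD2_mem]
    have h8 : c ∈ ql ++ [a0] := by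
      rw [hrest']
      simp
    rcases List.mem_append.1 h8 with h9 | h9
    · exact Or.inr (Or.inr (Or.inl (List.mem_append_right _ h9)))
    · exact Or.inr (Or.inr (Or.inr (List.mem_singleton.1 h9)))
  have hadj0 : AdjF F N₁.v a0 := by
    have h7 : Disc (N₁.v :: ((rv L ++ [d] ++ (bt ++ ql)) ++ [a0])) F := by
      have h8 := hreg.disc
      have h9 : lN [] a0 (N₁ :: L) d (bt ++ ql) =
          N₁.v :: ((rv L ++ [d] ++ (bt ++ ql)) ++ [a0]) := by simp [lN, rv]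
      rw [h9] at h8
      exact h8
    exact h7.root_adj (by simp)
  have hG : ∀ {u v : V}, AdjF F u v → G.Adj u v := by
    rintro u v ⟨hne, g, hg, hg1, hg2⟩
    exact hc.adj g (hreg.sub hg) _ hg1 _ hg2 hne
  have hyown : y ∈ Own J (lN [] a0 (N₁ :: L) d (bt ++ ql)) F := Or.inl ⟨hy, hyl⟩
  have hmap : (qa ++ qb).map Pl.v = bt ++ ql := by rw [List.map_append, hqav, hqbv]
  obtain ⟨Γ3, U3, hh, Wa, Wy, L3, hst, hPN, hovN, hovd, hovc, hWa, hWy, hL3, hpl3, hA3, hB3⟩ :=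
    trickYG (P := P) (T₂ := T₂) (Yt := Yt) (yl := yl) (y₁ := y₁) (sh := sh)
      (a := a) (qa := qa) (qb := qb) (y := y) h.wd h.adm
      (CD1_CIn_mono h.cin (fun v hv C hC => hPI v (fun hv' => hn3 v hv v (by
          simp only [List.mem_cons]
          tauto) rfl) C hC))
      (by
        rw [hmap, List.nodup_cons]
        refine ⟨fun h8 => hyl ?_, hnd⟩
        rw [CD2_mem]
        simp only [List.mem_append, List.mem_cons] at h8 ⊢
        tauto)
      hqa hqb ho ha hP h1 h2 h3 h3' h4 h5 h6 h7 (hG hadj0) (h.und y hyown)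
      (hPI y (fun h8 => hyl (CD2_mem.2 (Or.inr (Or.inr (Or.inl h8)))))) (hG hyd)
      (by rw [hcc]; exact hG hyc)
  rw [hcc] at hovc hA3
  rw [hqav] at hWa
  rw [hqbv] at hWy hB3
  have hf3 : ∀ o, U o ⊆ U3 o := hst.sub
  have hrvl : ∀ v ∈ rv (N₁ :: L), v ∈ lN [] a0 (N₁ :: L) d (bt ++ ql) := fun v hv =>
    CD2_mem.2 (Or.inl hv)
  have hdl : d ∈ lN [] a0 (N₁ :: L) d (bt ++ ql) := CD2_mem.2 (Or.inr (Or.inl rfl))
  have hbtl : ∀ v ∈ bt, v ∈ lN [] a0 (N₁ :: L) d (bt ++ ql) := fun v hv =>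
    CD2_mem.2 (Or.inr (Or.inr (Or.inl (List.mem_append_left _ hv))))
  have hqll : ∀ v ∈ ql, v ∈ lN [] a0 (N₁ :: L) d (bt ++ ql) := fun v hv =>
    CD2_mem.2 (Or.inr (Or.inr (Or.inl (List.mem_append_right _ hv))))
  have hbtr : ∀ v ∈ bt, v ∉ rv (N₁ :: L) := fun v hv h8 => hn3 v h8 v (by
    simp only [List.mem_cons, List.mem_append]
    tauto) rfl
  have hqlr : ∀ v ∈ ql, v ∉ rv (N₁ :: L) := fun v hv h8 => hn3 v h8 v (by
    simp only [List.mem_cons, List.mem_append]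
    tauto) rfl
  have hbq : ∀ v ∈ bt, v ∉ ql := by
    intro v hv h8
    have h9 := (List.nodup_cons.1 (List.nodup_cons.1 hn2).2).2
    exact (List.nodup_append.1 h9).2.2 v hv v h8 rfl
  -- the lists of the two parts
  have hlA : ∀ v, v ∈ lN Wa c [] y [] ++ [d] ↔ v = y ∨ v ∈ bt ∨ v = c ∨ v = d := by
    intro v
    simp only [lN, List.append_nil, List.mem_append, List.mem_reverse, List.mem_singleton, hWa]
    simp only [rv, List.map_nil, List.not_mem_nil, false_or, or_assoc]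
  have hlB : ∀ v, v ∈ lN Wy a0 L3 N₁.v [] ++ [d] ↔
      v ∈ rv (N₁ :: L) ∨ v = y ∨ v ∈ ql ∨ v = a0 ∨ v = d := by
    intro v
    simp only [lN, List.append_nil, List.mem_append, List.mem_reverse, List.mem_singleton, hWy,
      hL3, List.mem_cons, List.not_mem_nil, or_false, false_or]
    have h8 : v ∈ rv (N₁ :: L) ↔ v = N₁.v ∨ v ∈ rv L := List.mem_cons
    rw [h8]
    simp only [or_assoc]
    constructor
    · rintro (h9 | h9 | h9)
      · exact Or.inr (Or.inl h9)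
      · exact Or.inl h9
      · exact Or.inr (Or.inr h9)
    · rintro (h9 | h9 | h9)
      · exact Or.inr (Or.inl h9)
      · exact Or.inl h9
      · exact Or.inr (Or.inr h9)
  have hMA' : MC T Fs (rv [] ++ [y]) (rv Wa ++ [c]) [] [] d FA := by
    rw [hWa]
    exact hMA
  have hblB : rv L3 ++ [N₁.v] = (rv (N₁ :: L)).reverse := by
    rw [hL3]
    show _ = (N₁.v :: rv L).reverse
    rw [List.reverse_cons]
  have hMB' : MC T Fs (rv Wy ++ [a0]) (rv L3 ++ [N₁.v]) [] [] d FB := by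
    rw [hblB, hWy]
    exact hMB
  have hregA : Reg T Fs (lN Wa c [] y [] ++ [d]) FA := hMA'.reg
  have hregB0 : Reg T Fs ((rv Wy ++ [a0]) ++ [] ++ (rv L3 ++ [N₁.v]).reverse ++ [d]) FB :=
    hMB'.reg
  have hlB0 : ∀ v, v ∈ (rv Wy ++ [a0]) ++ [] ++ (rv L3 ++ [N₁.v]).reverse ++ [d] ↔
      v ∈ lN Wy a0 L3 N₁.v [] ++ [d] := by
    intro v
    simp only [lN, List.append_nil, List.mem_append, List.mem_reverse, List.mem_singleton]
    tauto
  have hvA : verts (lN Wa c [] y [] ++ [d]) FA =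
      verts ([y] ++ (bt ++ [c]).reverse ++ [d]) FA := CombA_verts fun v => by
    rw [hlA]
    simp only [List.mem_append, List.mem_reverse, List.mem_singleton, or_assoc]
  have hvB : verts (lN Wy a0 L3 N₁.v [] ++ [d]) FB =
      verts ((y :: (ql ++ [a0])) ++ rv (N₁ :: L) ++ [d]) FB := CombA_verts fun v => by
    rw [hlB]
    simp only [List.mem_append, List.mem_cons, List.mem_singleton, List.not_mem_nil, or_false]
    tauto
  have hcmv : ∀ v, v ∈ verts (lN Wa c [] y [] ++ [d]) FA →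
      v ∈ verts (lN Wy a0 L3 N₁.v [] ++ [d]) FB → v = y ∨ v = c ∨ v = d := by
    intro v h8 h9
    rw [hvA] at h8
    rw [hvB] at h9
    exact hcm v h8 h9
  have hcB : c ∈ lN Wy a0 L3 N₁.v [] ++ [d] := by
    rw [hlB]
    have h8 : c ∈ ql ++ [a0] := by
      rw [hrest']
      simp
    rcases List.mem_append.1 h8 with h9 | h9
    · exact Or.inr (Or.inr (Or.inl h9))
    · exact Or.inr (Or.inr (Or.inr (Or.inl (List.mem_singleton.1 h9))))
  have hownA : ∀ v ∈ Own J (lN Wa c [] y [] ++ [d]) FA,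
      v ∈ Own J (lN [] a0 (N₁ :: L) d (bt ++ ql)) F := fun v hv =>
    MachB4_sub hFA (fun w hw hw' => by
      rw [hlA]
      by_cases h8 : w ∈ lN Wy a0 L3 N₁.v [] ++ [d]
      · rcases hcmv w hw (DiscA_mem_verts_left h8) with h9 | h9 | h9
        · exact Or.inl h9
        · exact Or.inr (Or.inr (Or.inl h9))
        · exact Or.inr (Or.inr (Or.inr h9))
      · rw [hlB] at h8
        rw [CD2_mem, List.mem_append] at hw'
        tauto) hv
  have hownB : ∀ v ∈ Own J (lN Wy a0 L3 N₁.v [] ++ [d]) FB,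
      v ∈ Own J (lN [] a0 (N₁ :: L) d (bt ++ ql)) F := fun v hv =>
    MachB4_sub hFB (fun w hw hw' => by
      rw [hlB]
      rw [CD2_mem, List.mem_append] at hw'
      by_cases h8 : w ∈ bt
      · have h10 : w ∈ lN Wa c [] y [] ++ [d] := by
          rw [hlA]
          exact Or.inr (Or.inl h8)
        rcases hcmv w (DiscA_mem_verts_left h10) hw with h9 | h9 | h9
        · exact Or.inr (Or.inl h9)
        · rw [h9]
          rw [← hlB]
          exact hcB
        · exact Or.inr (Or.inr (Or.inr (Or.inr h9)))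
      · tauto) hv
  have hsplit : ∀ v ∈ Own J (lN [] a0 (N₁ :: L) d (bt ++ ql)) F, v = y ∨
      v ∈ Own J (lN Wa c [] y [] ++ [d]) FA ∨ v ∈ Own J (lN Wy a0 L3 N₁.v [] ++ [d]) FB := by
    intro v hv
    by_cases hvy : v = y
    · exact Or.inl hvy
    right
    have hA' : v ∉ lN [] a0 (N₁ :: L) d (bt ++ ql) → v ∉ lN Wa c [] y [] ++ [d] := by
      intro h8 h9
      rw [hlA] at h9
      rcases h9 with h9 | h9 | h9 | h9
      · exact hvy h9
      · exact h8 (hbtl v h9)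
      · exact h8 (h9 ▸ hcl)
      · exact h8 (h9 ▸ hdl)
    have hB' : v ∉ lN [] a0 (N₁ :: L) d (bt ++ ql) → v ∉ lN Wy a0 L3 N₁.v [] ++ [d] := by
      intro h8 h9
      rw [hlB] at h9
      rcases h9 with h9 | h9 | h9 | h9 | h9
      · exact h8 (hrvl v h9)
      · exact hvy h9
      · exact h8 (hqll v h9)
      · exact h8 (CD2_mem.2 (Or.inr (Or.inr (Or.inr h9))))
      · exact h8 (h9 ▸ hdl)
    rcases CD1_own_verts hv with ⟨h8, g, hg, hvg⟩ | ⟨g, hg, hvg⟩
    · rw [hF, Finset.mem_union] at hg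
      rcases hg with hg | hg
      · exact Or.inl (Or.inl ⟨CD1_mem_verts.2 (Or.inr ⟨g, hg, hvg⟩), hA' h8⟩)
      · exact Or.inr (Or.inl ⟨CD1_mem_verts.2 (Or.inr ⟨g, hg, hvg⟩), hB' h8⟩)
    · rw [hF, Finset.mem_union] at hg
      rcases hg with hg | hg
      · exact Or.inl (Or.inr ⟨g, hg, hvg⟩)
      · exact Or.inr (Or.inr ⟨g, hg, hvg⟩)
  have hnotOwn : ∀ v ∈ lN [] a0 (N₁ :: L) d (bt ++ ql), v ∉ Own J (lN Wa c [] y [] ++ [d]) FA ∧
      v ∉ Own J (lN Wy a0 L3 N₁.v [] ++ [d]) FB := fun v hv =>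
    ⟨fun h8 => Reg.notMem_Own hc hreg hv (hownA v h8),
      fun h8 => Reg.notMem_Own hc hreg hv (hownB v h8)⟩
  have hregB : Reg T Fs (lN Wy a0 L3 N₁.v [] ++ [d]) FB := by
    refine CombA_reg hregB0 ?_ hlB0
    have h8 := hregB0.disc.reverse
    have h9 : ((rv Wy ++ [a0]) ++ [] ++ (rv L3 ++ [N₁.v]).reverse ++ [d]).reverse =
        [d] ++ lN Wy a0 L3 N₁.v [] := by
      simp [lN]
    rw [h9] at h8
    exact h8.append_comm
  have hyA : y ∉ Own J (lN Wa c [] y [] ++ [d]) FA :=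
    Reg.notMem_Own hc hregA ((hlA y).2 (Or.inl rfl))
  have hyB : y ∉ Own J (lN Wy a0 L3 N₁.v [] ++ [d]) FB :=
    Reg.notMem_Own hc hregB ((hlB y).2 (Or.inr (Or.inl rfl)))
  have hybt : y ∉ bt := fun h8 => hyl (hbtl y h8)
  have hyq : y ∉ ql := fun h8 => hyl (hqll y h8)
  have hyr : y ∉ rv (N₁ :: L) := fun h8 => hyl (hrvl y h8)
  have hstep3 : ∀ v, v ∈ Own J (lN [] a0 (N₁ :: L) d (bt ++ ql)) F → v ≠ y → Undrawn Γ3 v :=
    fun v hv hvy => (h.und v hv).grow hst.grow (by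
      rintro (h8 | h8)
      · exact hvy h8
      · exact Reg.notMem_Own hc hreg (hrvl v h8) hv)
  have hrz3 : ∀ {u v : V}, Rz Ex Γ u v → Rz Ex Γ3 u v := fun hr => Rz.mono hst.grow hr
  have hov3 : List.IsChain (Rz Ex Γ3) (d :: (bt ++ (ql ++ [a0]))) := by
    have h8 := Rz.chain_mono hst.grow hov
    rw [List.cons_append, List.append_assoc] at h8
    exact h8
  have hov3c : List.IsChain (Rz Ex Γ3) (d :: (bt ++ [c])) := by
    rw [hrest'] at hov3
    have h8 : d :: (bt ++ c :: rest) = (d :: (bt ++ [c])) ++ rest := by simp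
    rw [h8] at hov3
    exact hov3.left_of_append
  have hov3q : List.IsChain (Rz Ex Γ3) (ql ++ [a0]) := by
    have h8 : d :: (bt ++ (ql ++ [a0])) = (d :: bt) ++ (ql ++ [a0]) := rfl
    rw [h8] at hov3
    exact hov3.right_of_append
  have hrL3 : List.IsChain (Rz Ex Γ3) (rv (N₁ :: L) ++ [d]) := Rz.chain_mono hst.grow h.rL
  -- part A
  have hNA : MG1 G P T Fs J Ex Γ3 U3 (D ⊓ (nl U3 ⊔ (band Yt T₁ ⊓ xge Xd))) d Xd hh hh Yt Wa c
      (topX qb X0) (topX qb X0) [] y Y0 Y0 [] FA :=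
    { adm := CD3_adm h.adm hf3
      wd := hst.wd
      geo := hA3
      comb := hMA'
      side :=
        { av := fun v _ x hx => absurd hx List.not_mem_nil
          base := fun hh => absurd rfl hh
          und := fun v hv => hstep3 v (hownA v hv) (fun h8 => hyA (h8 ▸ hv))
          hP := fun v hv C hC => hPI v (fun h8 => Reg.notMem_Own hc hreg
            (CD2_mem.2 (Or.inr (Or.inr (Or.inl h8)))) (hownA v hv)) C hC
          pl := fun r hr => absurd hr List.not_mem_nil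
          rW := by
            rw [hWa]
            exact hov3c.tail
          rL := List.isChain_singleton y
          rB := fun _ => Or.inr hovc.symm
          lk := fun hh => absurd rfl hh }
      rz1 := by
        cases hbt : bt with
        | nil =>
          rw [hbt] at hov3c hWa
          have h8 : topv Wa c = c := CD4_topv (l := []) (by rw [hWa]; rfl)
          rw [h8]
          exact (List.isChain_cons_cons.1 hov3c).1
        | cons b t =>
          rw [hbt] at hov3c hWa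
          have h8 : topv Wa c = b := CD4_topv (l := t ++ [c]) (by rw [hWa]; rfl)
          rw [h8]
          exact (List.isChain_cons_cons.1 hov3c).1
      rz2 := Or.inr hovd.symm }
  obtain ⟨Γ4, U4, hs4, hfin4, hfil4, hre4⟩ := closedM1 hc hE hNA
  have hKA : ∀ v, v ∈ KSet J (lN Wa c [] y [] ++ [d]) FA Wa [] ↔
      v ∈ Own J (lN Wa c [] y [] ++ [d]) FA ∨ v ∈ bt := by
    intro v
    show (v ∈ Own J _ FA ∨ v ∈ rv Wa ∨ v ∈ rv []) ↔ _
    rw [hWa]
    simp [rv]
  have hf4 : ∀ o, U o ⊆ U4 o := fun o => (hf3 o).trans (hs4.sub o)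
  have hrA : ∀ v ∈ rv (N₁ :: L), v ∉ KSet J (lN Wa c [] y [] ++ [d]) FA Wa [] := by
    intro v hv
    rw [hKA]
    rintro (h8 | h8)
    · exact (hnotOwn v (hrvl v hv)).1 h8
    · exact hbtr v h8 hv
  have hqA : ∀ v ∈ ql, v ∉ KSet J (lN Wa c [] y [] ++ [d]) FA Wa [] := by
    intro v hv
    rw [hKA]
    rintro (h8 | h8)
    · exact (hnotOwn v (hqll v hv)).1 h8
    · exact hbq v h8 hv
  have hyKA : y ∉ KSet J (lN Wa c [] y [] ++ [d]) FA Wa [] := by
    rw [hKA]
    rintro (h8 | h8)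
    · exact hyA h8
    · exact hybt h8
  have hB4 := hB3 Γ4 U4 _ hs4 hrA hqA hyKA
  have hdisj : ∀ v ∈ Own J (lN Wa c [] y [] ++ [d]) FA,
      v ∉ Own J (lN Wy a0 L3 N₁.v [] ++ [d]) FB := fun v hv =>
    Own.disj hc (hFA.trans hreg.sub) (hFB.trans hreg.sub) hdj (fun w h8 h9 => by
      rcases hcmv w h8 h9 with rfl | rfl | rfl
      · exact ⟨(hlA _).2 (Or.inl rfl), (hlB _).2 (Or.inr (Or.inl rfl))⟩
      · exact ⟨(hlA _).2 (Or.inr (Or.inr (Or.inl rfl))), hcB⟩
      · exact ⟨(hlA _).2 (Or.inr (Or.inr (Or.inr rfl))),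
          (hlB _).2 (Or.inr (Or.inr (Or.inr (Or.inr rfl))))⟩) hv
  have hmono4 : ∀ {u v : V}, Rz Ex Γ3 u v → Rz Ex (flD Γ4) u v := fun hr =>
    CD1_rzfl.2 (Rz.mono hs4.grow hr)
  have htopWy : topv Wy a0 = y := CD4_topv (l := ql ++ [a0]) (by rw [hWy]; rfl)
  obtain ⟨nll, hnl⟩ := CD1_lastv L N₁.v
  have hnl' : rv (N₁ :: L) = nll ++ [lastv (N₁ :: L) d] := hnl
  -- part B
  have hNB : MG2 G (flP P) T Fs J Ex (flD Γ4) (flU U4) (fly (D ⊓ (nl U4 ⊔ band yl Y0))) d
      (-Y0) (-y₁) A (-y₁) Wy a0 X0 X0 L3 N₁.v (-N₁.c) (-N₁.c) [] FB :=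
    { adm := Adm.fl.2 (CD3_adm h.adm hf4)
      wd := Wd.fl.2 hs4.wd
      geo := hB4
      comb := hMB'
      side :=
        { av := fun v _ x hx => absurd hx List.not_mem_nil
          base := fun hh => absurd rfl hh
          und := fun v hv => Undrawn.fl.2 ((hstep3 v (hownB v hv)
            (fun h8 => hyB (h8 ▸ hv))).grow hs4.grow (by
              rw [hKA]
              rintro (h8 | h8)
              · exact hdisj v h8 hv
              · exact (hnotOwn v (hbtl v h8)).2 hv))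
          hP := fun v hv C hC => hPI v (fun h8 => Reg.notMem_Own hc hreg
            (CD2_mem.2 (Or.inr (Or.inr (Or.inl h8)))) (hownB v hv)) (fly C) (IsPath3.fly.2 hC)
          pl := hpl3
          rW := by
            rw [hWy]
            have h8 : List.IsChain (Rz Ex Γ3) (y :: (ql ++ [a0])) := by
              rw [hrest'] at hov3q ⊢
              exact List.isChain_cons_cons.2 ⟨Or.inr hovc, hov3q⟩
            exact h8.imp fun _ _ h9 => hmono4 h9
          rL := by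
            rw [hblB]
            exact (CD1_chain_rev (fun _ _ => Rz.symm hE) hrL3.left_of_append).imp
              fun _ _ h8 => hmono4 h8
          rB := fun _ => hmono4 (Or.inr hovN.symm)
          lk := fun hh => absurd rfl hh }
      rz1 := by
        rw [htopWy]
        exact hmono4 (Or.inr hovd.symm)
      rz2 := by
        have h8 : topv L3 N₁.v = lastv (N₁ :: L) d := CD4_topv (l := nll.reverse) (by
          rw [hblB, hnl']
          simp)
        rw [h8]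
        refine hmono4 (Rz.symm hE ?_)
        rw [hnl', List.append_assoc] at hrL3
        exact (List.isChain_cons_cons.1 hrL3.right_of_append).1 }
  obtain ⟨Γ5, U5, hs5, hfin5, hfil5, hre5⟩ := closedM2 hc hE hNB
  have hs5' : Step G Γ4 U4 (D ⊓ (nl U4 ⊔ band yl Y0))
      (KSet J (lN Wy a0 L3 N₁.v [] ++ [d]) FB Wy L3) (flD Γ5) (flU U5) :=
    Step.fl.1 (by rw [flD_flD, flU_flU]; exact hs5)
  have hKB : ∀ v, v ∈ KSet J (lN Wy a0 L3 N₁.v [] ++ [d]) FB Wy L3 ↔
      v ∈ Own J (lN Wy a0 L3 N₁.v [] ++ [d]) FB ∨ (v = y ∨ v ∈ ql) ∨ v ∈ rv L := by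
    intro v
    show (v ∈ Own J _ FB ∨ v ∈ rv Wy ∨ v ∈ rv L3) ↔ _
    rw [hWy, hL3, List.mem_reverse, List.mem_cons]
  have hrvL : ∀ v ∈ rv L, v ∈ rv (N₁ :: L) := fun v hv => List.mem_cons_of_mem _ hv
  have hNB5 : N₁.v ∉ KSet J (lN Wy a0 L3 N₁.v [] ++ [d]) FB Wy L3 := by
    have h8 : N₁.v ∈ rv (N₁ :: L) := List.mem_cons_self
    rw [hKB]
    rintro (h9 | (h9 | h9) | h9)
    · exact (hnotOwn _ (hrvl _ h8)).2 h9
    · exact hyr (h9 ▸ h8)
    · exact hqlr _ h9 h8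
    · exact (List.nodup_cons.1 (show (N₁.v :: rv L).Nodup from hn1)).1 h9
  have hA5 : ∀ v, v ∈ Own J (lN Wa c [] y [] ++ [d]) FA ∨ v ∈ bt →
      v ∉ KSet J (lN Wy a0 L3 N₁.v [] ++ [d]) FB Wy L3 := by
    intro v hv
    rw [hKB]
    rintro (h9 | (h9 | h9) | h9)
    · rcases hv with hv | hv
      · exact hdisj v hv h9
      · exact (hnotOwn v (hbtl v hv)).2 h9
    · rcases hv with hv | hv
      · exact hyA (h9 ▸ hv)
      · exact hybt (h9 ▸ hv)
    · rcases hv with hv | hv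
      · exact (hnotOwn v (hqll v h9)).1 hv
      · exact hbq v hv h9
    · rcases hv with hv | hv
      · exact (hnotOwn v (hrvl v (hrvL v h9))).1 hv
      · exact hbtr v hv (hrvL v h9)
  refine ⟨flD Γ5, flU U5, ?_, ?_, ?_, ?_⟩
  · have hYt : yl ≤ Yt := by
      have h8 := h4 N₁ List.mem_cons_self
      have h9 : N₁.g < N₁.c := h.cin.n.ordB.2.1
      linarith
    refine (hst.weaken le_rfl ?_).trans ((hs4.weaken (CD4_DA hf3 hYt) ?_).trans
      (hs5'.weaken (CD3_band hf4 h.cin.YT.le) ?_))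
    · rintro v (h8 | h8)
      · exact Or.inl (Or.inl (h8 ▸ hyown))
      · exact Or.inl (Or.inr (Or.inr h8))
    · intro v hv
      rcases (hKA v).1 hv with h8 | h8
      · exact Or.inl (Or.inl (hownA v h8))
      · exact Or.inr (List.mem_append_left _ h8)
    · intro v hv
      rcases (hKB v).1 hv with h8 | (h8 | h8) | h8
      · exact Or.inl (Or.inl (hownB v h8))
      · exact Or.inl (Or.inl (h8 ▸ hyown))
      · exact Or.inr (List.mem_append_right _ h8)
      · exact Or.inl (Or.inr (Or.inr (hrvL v h8)))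
  · have hfinA : ∀ v, v ∈ Own J (lN Wa c [] y [] ++ [d]) FA ∨ v ∈ bt → P v (flD Γ5 v) := by
      intro v hv
      rw [hs5'.grow.eq (hA5 v hv)]
      exact hfin4 v ((hKA v).2 hv)
    have hfinB : ∀ v, v ∈ Own J (lN Wy a0 L3 N₁.v [] ++ [d]) FB ∨ (v = y ∨ v ∈ ql) ∨ v ∈ rv L →
        P v (flD Γ5 v) := fun v hv => hfin5 v ((hKB v).2 hv)
    rintro v ((h8 | h8 | h8) | h8)
    · rcases hsplit v h8 with h9 | h9 | h9
      · exact hfinB v (Or.inr (Or.inl (Or.inl h9)))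
      · exact hfinA v (Or.inl h9)
      · exact hfinB v (Or.inl h9)
    · exact absurd h8 List.not_mem_nil
    · rcases List.mem_cons.1 (show v ∈ N₁.v :: rv L from h8) with rfl | h9
      · rw [hs5'.grow.eq hNB5, hs4.grow.eq (hrA _ h8)]
        exact hPN
      · exact hfinB v (Or.inr (Or.inr h9))
    · rcases List.mem_append.1 h8 with h9 | h9
      · exact hfinA v (Or.inr h9)
      · exact hfinB v (Or.inr (Or.inl (Or.inr h9)))
  · intro f hf
    rw [hF, Finset.mem_union] at hf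
    rcases hf with hf | hf
    · refine (hfil4 f hf).mono hs5'.grow fun v hv => hA5 v (Or.inl (Or.inr ⟨f, hf, hv⟩))
    · exact Filled.fl.2 (hfil5 f hf)
  · intro f hf
    rw [hF, Finset.mem_union] at hf
    rcases hf with hf | hf
    · intro p hp r hr hne
      exact Rz.mono hs5'.grow (hre4 f hf p hp r hr hne)
    · intro p hp r hr hne
      exact CD1_rzfl.2 (hre5 f hf p hp r hr hne)

end EPG26
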