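import Pool.Agent.W_26e041_h39.CD2

/-!
The first run (for `core`, MP_26e041_co).
-/

namespace EPG26

variable {V : Type*} [DecidableEq V]

theorem CD_run {G : SimpleGraph V} {T : Finset V} {Fs : Finset (Finset V)}
    {J : Finset V → Finset V} {Ex : V → V → Prop} (hc : Ctx G T Fs J)
    (hE : ∀ u v, Ex u v → Ex v u) {Γ : Dr V} {U : Bool → Finset ℚ} {D D₁ : Cov}
    {z : V} {Xz h A B : ℚ} {W : List (Rec V)} {a0 : V} {X0 Xd : ℚ} {L : List (Rec V)} {d : V}
    {Y0 : ℚ} {be : List V} {F : Finset (Finset V)} {Λ T₁ : ℚ}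
    (hM : MG1 G (fun _ C => IsPath3 C) T Fs J Ex Γ U D₁ z Xz h A B W a0 X0 Xd L d Y0 Y0 be F)
    (hbe : be ≠ []) (hD : Adm U D) (hD₁ : D₁ ≤ D) (h1 : ∀ x, x ∉ D₁ true Xd)
    (h2 : ∀ x, x ∈ D₁ false Y0 → x < Xd) (h3 : ∀ x, x ∈ D₁ true X0 → x < Y0)
    (h4 : ∀ x, x ∉ D₁ false Λ) (h5 : ∀ o l x, x ∈ D₁ o l → x ∈ (nl U ⊔ band B T₁) o l)
    (hYD : ∀ x, x ∈ D false Y0) (hrow : ∀ x, Xd ≤ x → x ≤ X0 → ∀ v, x ∉ Γ v false Y0)
    (hdc : SW Γ D {d} true Xd B Y0) (hac : SW Γ D {a0} true X0 B T₁) (hYT : Y0 < T₁)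
    (hXX : Xd < X0) :
    ∃ Γ₁ U₁ D₂ A₁ B₁ N₁ L₁ F₁ l₀ l₁,
      Prog G (fun _ C => IsPath3 C) J Ex Γ U D₁ F
        (KSet J (lN W a0 L d be ++ [z]) F W L) Γ₁ U₁ D₂ F₁
        (KSet J (lN [] a0 (N₁ :: L₁) d be) F₁ [] (N₁ :: L₁)) a0 N₁.v ∧
      CR G T Fs J Ex Γ₁ U₁ D A₁ B₁ N₁ L₁ d Xd Y0 a0 X0 T₁ Λ be F₁ l₀ l₁ ∧ B ≤ B₁ := by
  obtain ⟨Γ₁, U₁, D₂, A₁, B₁, L', F₁, hpr, hN, -, -⟩ :=
    (run hc hE (2 * F.card)).2.1 _ _ _ _ _ _ _ _ _ _ _ _ _ _ _ _ _ _ le_rfl hM
  cases L' with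
  | nil =>
    exfalso
    have e1 : Disc (d :: (be ++ [a0])) F₁ := by
      have := hN.comb.reg.disc
      simpa [rv] using this
    obtain ⟨e2, f, hf, e3, e4⟩ := e1.root_adj hbe
    exact hN.side.base hbe ⟨e2.symm, f, hf, e4, e3⟩
  | cons N₁ L₁ =>
    have hDD : D₂ ≤ D := le_trans hpr.hD hD₁
    have hU : ∀ o, U o ⊆ U₁ o := hpr.step.sub
    have hg := hpr.step.grow
    have hBY : B < Y0 := hM.geo.n.ordB.lt
    have hAX : A < Xd := hM.geo.n.ordW.lt
    have hB1Y : B₁ < Y0 := hN.geo.ordB.lt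
    have hA1X : A₁ < Xd := hN.geo.ordW.lt
    have hX0U : X0 ∈ U true := hM.geo.n.wbase.mem (Set.mem_singleton a0) hM.wd.lines hBY
    have hY0U : Y0 ∈ U false := hM.geo.n.bbase.mem (Set.mem_singleton d) hM.wd.lines hAX
    have hXdU : Xd ∈ U true := hdc.mem (Set.mem_singleton d) hM.wd.lines hBY
    have hBB : B ≤ B₁ := by
      by_contra hlt
      have hlt : B₁ < B := not_le.1 hlt
      obtain ⟨x, e1, e2⟩ := exists_between (lt_min hlt hB1Y)
      have e3 := (hN.geo.wbase x e1 (e2.trans_le (min_le_right _ _))).1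
      rcases h5 _ _ _ (hpr.hD _ _ e3) with e4 | e4
      · exact e4 hX0U
      · exact absurd e4.1 (not_le.2 (e2.trans_le (min_le_left _ _)))
    obtain ⟨htch, l₀, l₁, e1, e2, e3, -⟩ := hN.side.lk hbe (List.cons_ne_nil _ _)
    refine ⟨Γ₁, U₁, D₂, A₁, B₁, N₁, L₁, F₁, l₀, l₁, hpr, ?_, hBB⟩
    have hA1 : A₁ < X0 := hA1X.trans hXX
    exact
      { wd := hN.wd
        adm := hD.mono hU
        cin :=
          { n := CD1_NSt_mono hN.geo hDD (fun v _ C hC => hC)
            pl := hN.side.pl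
            lt := hXX
            YT := hYT
            rowD := hYD
            row := fun x e4 e5 v hv => by
              rcases hg.new v _ _ x hv with e6 | ⟨-, e6⟩
              · exact hrow x e4 e5 v e6
              · exact absurd (h2 x e6) (not_lt.2 e4)
            dcol := (hdc.sub hBB le_rfl).grow hg fun x _ _ => h1 x
            acol := by
              intro x e4 e5
              rcases lt_or_ge x Y0 with e6 | e6
              · have e7 := hN.geo.wbase x e4 e6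
                exact ⟨hDD _ _ e7.1, e7.2⟩
              · have e8 := hac x (lt_of_lt_of_le hBY e6) e5
                refine ⟨e8.1, fun v => ⟨fun hv => ?_, fun hv => ?_⟩⟩
                · rcases hg.new v _ _ x hv with e9 | ⟨-, e9⟩
                  · exact (e8.2 v).1 e9
                  · exact absurd (h3 x e9) (not_lt.2 e6)
                · exact hg.mono v _ _ x ((e8.2 v).2 hv) }
        comb := hN.comb
        und := hN.side.und
        rL := hN.side.rL
        hl := e1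
        hlA := e2
        hz := e3
        rl := fun r hr => by
          obtain ⟨s, hs, hp⟩ := hN.geo.black r hr
          refine ⟨?_, hp.hc⟩
          intro hrΛ
          have e4 := (hp.line s le_rfl (lt_of_le_of_lt hs hA1)).1
          rw [hrΛ] at e4
          exact h4 s (hpr.hD _ _ e4)
        yl := by
          intro hY
          obtain ⟨x, e4, e5⟩ := exists_between hAX
          have e6 := (hM.geo.n.bbase x e4 e5).1
          rw [hY] at e6
          exact h4 x e6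
        yU := hU _ hY0U
        xU := hU _ hX0U
        xdU := hU _ hXdU }

end EPG26
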