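import Pool.Agent.W_26e041_h39.CD5
import Pool.Agent.W_26e041_h39.CD4

/-!
Placing the vertices (for `core`, MP_26e041_co).
-/

namespace EPG26

variable {V : Type*} [DecidableEq V]

theorem CD6_fan {G : SimpleGraph V} {Fs : Finset (Finset V)} {ow : V} {l : List V}
    (h : List.IsChain (fun p q => ({ow, p, q} : Finset V) ∈ Fs) l) : fanF ow l ⊆ Fs := by
  intro f hf
  obtain ⟨p, a, b, s, e1, rfl⟩ := DiscH_mem_fanF.1 hf
  rw [e1] at h
  exact (List.isChain_append_cons_cons.1 h).2.1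

theorem CD6_line {Γ : Dr V} {D : Cov} {ow v : V} {Λ lc c0 c1 e R lo hi s0 s1 : ℚ}
    (h : LineOK Γ D ow Λ v lc c0 e R lo hi s0 s1) (h1 : c0 ≤ c1) (h2 : c1 < e) :
    LineOK Γ D ow Λ v lc c1 e R lo hi s0 s1 :=
  { h1 := h.h1
    h2 := h.h2
    h3 := h.h3.trans h1
    h4 := h2
    h5 := h.h5
    h6 := h.h6
    h7 := h.h7
    zone := h.zone.sub h1 le_rfl
    free := h.free
    res := h.res
    strip := h.strip }

theorem CD6_lineD {Γ : Dr V} {U : Bool → Finset ℚ} {D : Cov} {ow v : V}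
    {Λ lc c0 c1 e R lo hi s0 s1 b : ℚ} (hD : Adm U D)
    (h : LineOK Γ D ow Λ v lc c0 e R lo hi s0 s1) (h1 : c0 < c1) (hcb : c1 ≤ b) (hb : b ≤ R) :
    lineD U Λ lc c1 b lo hi s0 s1 ≤ D ⊓ lineD U Λ lc c0 b lo hi s0 s1 := by
  intro o l x hx
  rcases hx with ((hx | hx) | hx) | hx
  · exact ⟨hD o l hx, Or.inl (Or.inl (Or.inl hx))⟩
  · refine ⟨?_, Or.inl (Or.inl (Or.inr hx))⟩
    obtain ⟨rfl, rfl, e1, e2⟩ := hx
    rw [min_eq_left h.h1.le] at e1
    rw [max_eq_right h.h1.le] at e2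
    exact (h.res x e1 e2).1
  · obtain ⟨rfl, rfl, e1, e2⟩ := (LineA_mem hcb).1 hx
    refine ⟨?_, Or.inl (Or.inr ((LineA_mem (h1.le.trans hcb)).2 ⟨rfl, rfl, h1.trans e1, e2⟩))⟩
    rcases lt_or_ge x e with e3 | e3
    · exact (h.zone x (h1.trans e1) e3).1
    · exact (h.free x e3 (e2.le.trans hb)).1
  · refine ⟨?_, Or.inr hx⟩
    obtain ⟨rfl, rfl, e1, e2⟩ := hx
    rw [min_eq_left h.h7.le] at e1
    rw [max_eq_right h.h7.le] at e2
    exact (h.strip x e1 e2).1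

theorem CD6_notin {U : Bool → Finset ℚ} {Λ lc c0 b lo hi s0 s1 l x : ℚ} (h1 : l ∈ U false)
    (h2 : l ≠ Λ) : x ∉ lineD U Λ lc c0 b lo hi s0 s1 false l := by
  rintro (((hx | hx) | hx) | hx)
  · exact hx h1
  · exact h2 hx.2.1
  · exact h2 hx.2.1
  · exact absurd hx.1 (by decide)

theorem CD6_notin' {U : Bool → Finset ℚ} {Λ lc c0 b lo hi s0 s1 l x : ℚ} (h1 : l ∈ U true)
    (h2 : l ≠ lc ∨ s1 ≤ x) (h3 : s0 < s1) : x ∉ lineD U Λ lc c0 b lo hi s0 s1 true l := by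
  rintro (((hx | hx) | hx) | hx)
  · exact hx h1
  · exact absurd hx.1 (by decide)
  · exact absurd hx.1 (by decide)
  · obtain ⟨-, e1, -, e2⟩ := hx
    rw [max_eq_right h3.le] at e2
    rcases h2 with h2 | h2
    · exact h2 e1
    · exact absurd e2 (not_lt.2 h2)

theorem CD_place {G : SimpleGraph V} {T : Finset V} {Fs : Finset (Finset V)}
    {J : Finset V → Finset V} {Ex : V → V → Prop} (hc : Ctx G T Fs J)
    {Γ : Dr V} {U : Bool → Finset ℚ} {D : Cov}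
    {A B : ℚ} {N₁ : Rec V} {L : List (Rec V)} {d : V} {Xd Y0 : ℚ} {a0 : V} {X0 T₁ Λ : ℚ}
    {be : List V} {F : Finset (Finset V)} {l₀ l₁ : ℚ}
    (h : CR G T Fs J Ex Γ U D A B N₁ L d Xd Y0 a0 X0 T₁ Λ be F l₀ l₁)
    {ow : V} {c0 e R lo hi s0 s1 Yt T₂ yl y₁ : ℚ}
    (hL : LineOK Γ D ow Λ d Xd c0 e R lo hi s0 s1)
    {ps : List (V × Kind)} (hps : ps.map Prod.fst = be) (hbe : be ≠ [])
    (hs : s1 ≤ B) (he : e < X0) (hR : X0 ≤ R) (hYt : s1 ≤ Yt) (hyl : s1 ≤ yl) (hT : T₁ < T₂)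
    (hy : y₁ < T₂)
    (hln : List.IsChain (fun p q => ({ow, p, q} : Finset V) ∈ Fs) (d :: be))
    (hlF : Disjoint F (fanF ow (d :: be))) (hnd : (ow :: d :: be).Nodup) (hdo : G.Adj d ow)
    (hun : ∀ p ∈ be, Undrawn Γ p)
    (hJ : ∀ f ∈ fanF ow (d :: be), ∀ q ∈ J f, Undrawn Γ q) :
    ∃ Γ' U' qs s lv lc' c0' e' lo' s0', qs.map (fun q => (q.v, q.k)) = ps ∧ OrdP e qs X0 ∧
      CR G T Fs J Ex Γ' U' D A B N₁ L d Xd Y0 a0 X0 T₁ Λ be F l₀ l₁ ∧
      Step G Γ U (D ⊓ lineD U Λ Xd c0 X0 lo hi s0 s1)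
        {q | q = d ∨ q ∈ be ∨ ∃ f ∈ fanF ow (d :: be), q ∈ J f} Γ' U' ∧
      e ≤ s ∧ Γ' d = Γ d ⊔ hseg false Λ e s ∧
      (∀ q ∈ qs, Placed Γ' U' D Λ Yt T₁ T₂ yl y₁ s1 q) ∧ (∀ q ∈ qs, q.X ∉ U true ∧ q.g ∉ U true) ∧
      (∀ f ∈ fanF ow (d :: be), Filled G Γ' (J f)) ∧
      List.IsChain (Ov Γ') (d :: be) ∧ (∀ q ∈ be, Ov Γ' q ow) ∧
      (d :: be).getLast? = some lv ∧ (∀ q ∈ qs, q.v = lv → q.es = e') ∧
      (∃ q ∈ qs, q.v = lv) ∧ e' < X0 ∧
      LineOK Γ' D ow Λ lv lc' c0' e' R lo' hi s0' s1 := by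
  obtain ⟨c1, e1, e2⟩ := exists_between hL.h4
  have hL' := CD6_line hL e1.le e2
  have hFs : fanF ow (d :: be) ⊆ Fs := CD6_fan (G := G) hln
  subst hps
  obtain ⟨Γ', U', qs, s, lv, lc', c0', e', lo', s0', f1, f2, f3, f4, f5, f6, f7, f8, f9, f10, f11,
    f12, f13, f14, f15, f16⟩ := placeL hc h.wd h.adm hL' le_rfl he hR hYt hyl hT hy hln hnd hdo
      hun hJ
  have hps : ps ≠ [] := by
    rintro rfl
    exact hbe rfl
  have hg := f3.grow
  have hqv : qs.map Pl.v = ps.map Prod.fst := by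
    rw [← f1, List.map_map]
    rfl
  have hnd2 := CD2_nd h
  -- vertices outside the drawn set
  have hnK : ∀ v ∈ rv (N₁ :: L), ¬ (v = d ∨ v ∈ ps.map Prod.fst ∨
      ∃ f ∈ fanF ow (d :: ps.map Prod.fst), v ∈ J f) := by
    intro v hv
    have g1 := (List.nodup_append.1 hnd2).2.2 v hv
    rintro (rfl | h1 | ⟨f, hf, h1⟩)
    · exact g1 v (List.mem_cons_self ..) rfl
    · exact g1 v (List.mem_cons_of_mem _ (List.mem_cons_of_mem _ h1)) rfl
    · exact CD1_notJ hc h.reg CR.len (CD2_mem.2 (Or.inl hv)) (hFs hf) h1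
  have hnO : ∀ v ∈ Own J (lN [] a0 (N₁ :: L) d (ps.map Prod.fst)) F, ¬ (v = d ∨
      v ∈ ps.map Prod.fst ∨ ∃ f ∈ fanF ow (d :: ps.map Prod.fst), v ∈ J f) := by
    intro v hv
    rintro (rfl | h1 | ⟨f, hf, h1⟩)
    · exact h.reg.notMem_Own hc (CD2_mem.2 (Or.inr (Or.inl rfl))) hv
    · exact h.reg.notMem_Own hc (CD2_mem.2 (Or.inr (Or.inr (Or.inl h1)))) hv
    · exact MachB4_content hc h.reg.sub (hFs hf)
        (fun h2 => Finset.disjoint_left.1 hlF h2 hf) h1 hv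
  have hX : X0 ≠ Xd := (h.cin.lt).ne'
  have hXd : Xd ∈ U true := h.xdU
  refine ⟨Γ', U', qs, s, lv, lc', c0', e', lo', s0', f1, f2, ?_,
    f3.weaken (CD6_lineD h.adm hL e1 (e2.le.trans he.le) hR) le_rfl, f4, f6, f7, f8, f9, f10, ?_, f12, ?_, ?_, ?_, f16⟩
  · exact
      { wd := f3.wd
        adm := h.adm.mono f3.sub
        cin := CD1_CIn_grow h.cin hg f3.sub
          (fun r hr hr2 => hnK r.v (List.mem_map_of_mem hr) hr2)
          (fun r hr x => CD6_notin (h.rl r hr).2 (h.rl r hr).1)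
          (fun x => CD6_notin h.yU h.yl)
          (fun x hx => CD6_notin' hXd (Or.inr (hs.trans hx.le)) hL.h7)
          (fun x => CD6_notin' h.xU (Or.inl hX) hL.h7)
        comb := h.comb
        und := fun v hv => (h.und v hv).grow hg (hnO v hv)
        rL := Rz.chain_mono hg h.rL
        hl := h.hl
        hlA := h.hlA
        hz := h.hz.grow hg fun x _ _ => CD6_notin h.yU h.yl
        rl := fun r hr => ⟨(h.rl r hr).1, f3.sub _ (h.rl r hr).2⟩
        yl := h.yl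
        yU := f3.sub _ h.yU
        xU := f3.sub _ h.xU
        xdU := f3.sub _ h.xdU }
  · intro q hq
    rw [← hqv] at hq
    obtain ⟨p, hp, rfl⟩ := List.mem_map.1 hq
    exact f11 p hp
  · intro q hq hqlv
    have hqs : qs ≠ [] := List.ne_nil_of_mem hq
    have g1 : qs.getLast? = some (qs.getLast hqs) := List.getLast?_eq_getLast_of_ne_nil hqs
    have g2 : (qs.getLast hqs).v = lv := by
      have g3 : (d :: ps.map Prod.fst).getLast? = some (qs.getLast hqs).v := by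
        rw [← hqv]
        conv_lhs => rw [← List.dropLast_append_getLast hqs]
        rw [List.map_append, List.map_singleton, ← List.cons_append, List.getLast?_append]
        rfl
      rw [g3] at f12
      exact Option.some.inj f12
    have g3 : q = qs.getLast hqs := by
      have g4 : (qs.map Pl.v).Nodup := by
        rw [hqv]
        exact (List.nodup_cons.1 (List.nodup_cons.1 hnd).2).2
      exact List.inj_on_of_nodup_map g4 hq (List.getLast_mem hqs) (hqlv.trans g2.symm)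
    rw [g3]
    exact f14 _ g1
  · have hqs : qs ≠ [] := by
      rintro rfl
      exact hps f1.symm
    have g3 : (d :: ps.map Prod.fst).getLast? = some (qs.getLast hqs).v := by
      rw [← hqv]
      conv_lhs => rw [← List.dropLast_append_getLast hqs]
      rw [List.map_append, List.map_singleton, ← List.cons_append, List.getLast?_append]
      rfl
    rw [g3] at f12
    exact ⟨qs.getLast hqs, List.getLast_mem hqs, Option.some.inj f12⟩
  · rcases f15 with g1 | g1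
    · exact g1
    · exact absurd g1 hps

end EPG26
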