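import Pool.Agent.W_26e041_h39.CD6

/-!
Assembly (for `core`, MP_26e041_co).
-/

namespace EPG26

variable {V : Type*} [DecidableEq V]

/-- a boundary vertex of the M-region is not drawn in the first run -/
theorem CD7_K0 {G : SimpleGraph V} {T : Finset V} {Fs : Finset (Finset V)}
    {J : Finset V → Finset V} (hc : Ctx G T Fs J) {z : V} {W L : List (Rec V)} {a0 d : V}
    {be : List V} {F : Finset (Finset V)} (hr : Reg T Fs (lN W a0 L d be ++ [z]) F)
    {v : V} (hv : v = d ∨ v ∈ be) : v ∉ KSet J (lN W a0 L d be ++ [z]) F W L := by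
  have hn := hr.disc.nodup
  have hm : v ∈ lN W a0 L d be ++ [z] := by
    simp only [lN, List.mem_append, List.mem_singleton]
    rcases hv with rfl | hv
    · exact Or.inl (Or.inl (Or.inl (Or.inr rfl)))
    · exact Or.inl (Or.inl (Or.inr hv))
  rintro (h1 | h1 | h1)
  · exact hr.notMem_Own hc hm h1
  · have h2 : (rv L ++ [d] ++ be ++ (rv W ++ [a0]).reverse).Nodup :=
      (List.nodup_append.1 hn).1
    refine (List.nodup_append.1 h2).2.2 v ?_ v ?_ rfl
    · rcases hv with rfl | hv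
      · simp
      · simp [hv]
    · simp [h1]
  · have h2 : (rv L ++ [d] ++ be ++ (rv W ++ [a0]).reverse).Nodup :=
      (List.nodup_append.1 hn).1
    have h3 : (rv L ++ ([d] ++ be)).Nodup := by
      rw [← List.append_assoc]
      exact (List.nodup_append.1 h2).1
    refine (List.nodup_append.1 h3).2.2 v h1 v ?_ rfl
    rcases hv with rfl | hv
    · simp
    · simp [hv]

/-- contents of the fan are not drawn in the first run -/
theorem CD7_fan {G : SimpleGraph V} {T : Finset V} {Fs : Finset (Finset V)}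
    {J : Finset V → Finset V} (hc : Ctx G T Fs J) {z : V} {W L : List (Rec V)} {a0 d : V}
    {be : List V} {F : Finset (Finset V)} (hr : Reg T Fs (lN W a0 L d be ++ [z]) F)
    {f : Finset V} (hf : f ∈ Fs) (hfn : f ∉ F) {v : V} (hv : v ∈ J f) :
    v ∉ KSet J (lN W a0 L d be ++ [z]) F W L := by
  have hlen : 3 ≤ (lN W a0 L d be ++ [z]).length := by
    simp only [lN, List.length_append, List.length_cons, List.length_reverse, List.length_nil]
    omega
  rintro (h1 | h1 | h1)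
  · exact MachB4_content hc hr.sub hf hfn hv h1
  · exact CD1_notJ hc hr hlen (by simp [lN, h1]) hf hv
  · exact CD1_notJ hc hr hlen (by simp [lN, h1]) hf hv

theorem CD7_notJ {G : SimpleGraph V} {T : Finset V} {Fs : Finset (Finset V)}
    {J : Finset V → Finset V} (hc : Ctx G T Fs J) {z : V} {W L : List (Rec V)} {a0 d : V}
    {be : List V} {F : Finset (Finset V)} (hr : Reg T Fs (lN W a0 L d be ++ [z]) F)
    {f : Finset V} (hf : f ∈ Fs) {v : V} (hv : v = d ∨ v ∈ be) : v ∉ J f := by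
  have hlen : 3 ≤ (lN W a0 L d be ++ [z]).length := by
    simp only [lN, List.length_append, List.length_cons, List.length_reverse, List.length_nil]
    omega
  refine CD1_notJ hc hr hlen ?_ hf
  rcases hv with rfl | hv
  · simp [lN]
  · simp [lN, hv]

theorem CD_fin {G : SimpleGraph V} {T : Finset V} {Fs : Finset (Finset V)}
    {J : Finset V → Finset V} {Ex : V → V → Prop} (hc : Ctx G T Fs J)
    (hE : ∀ u v, Ex u v → Ex v u) {Γ : Dr V} {U : Bool → Finset ℚ} {D D₁ : Cov}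
    {z : V} {B : ℚ} {W : List (Rec V)} {a0 : V} {X0 Xd : ℚ} {L : List (Rec V)} {d : V}
    {Y0 : ℚ} {be : List V} {F : Finset (Finset V)} {ow : V} {Λ c0 e R lo hi s0 s1 T₁ T₂ : ℚ}
    (hr : Reg T Fs (lN W a0 L d be ++ [z]) F)
    (hD₁ : D₁ ≤ D) (h5 : ∀ o l x, x ∈ D₁ o l → x ∈ (nl U ⊔ band B T₁) o l)
    (hYT : Y0 < T₁) (hBY : B < Y0)
    (hzn : SW Γ D {ow, d} false Λ c0 e) (hce : c0 < e) (hwd : Wd G Γ U)
    (hs : s1 ≤ B) (hext : Ext Λ e (Γ d))
    (hln : List.IsChain (fun p q => ({ow, p, q} : Finset V) ∈ Fs) (d :: be))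
    (hlF : Disjoint F (fanF ow (d :: be))) (hXe : Xd ≤ e)
    -- the first run
    {Γ₁ Γ₂ : Dr V} {U₁ U₂ : Bool → Finset ℚ} {D₂ : Cov} {B₁ : ℚ} {N₁ : Rec V}
    {L₁ : List (Rec V)} {F₁ : Finset (Finset V)}
    (hp : Prog G (fun _ C => IsPath3 C) J Ex Γ U D₁ F
        (KSet J (lN W a0 L d be ++ [z]) F W L) Γ₁ U₁ D₂ F₁
        (KSet J (lN [] a0 (N₁ :: L₁) d be) F₁ [] (N₁ :: L₁)) a0 N₁.v) (hBB : B ≤ B₁)
    (hr1 : Reg T Fs (lN [] a0 (N₁ :: L₁) d be) F₁)
    -- the second step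
    {qs : List (Pl V)} {s lc' c0' e' lo' s0' Yt yl y₁ : ℚ} {lv : V}
    (ho : OrdP e qs X0)
    (h2 : Step G Γ₁ U₁ (D ⊓ lineD U₁ Λ Xd c0 X0 lo hi s0 s1)
        {q | q = d ∨ q ∈ be ∨ ∃ f ∈ fanF ow (d :: be), q ∈ J f} Γ₂ U₂)
    (hes : e ≤ s) (hd2 : Γ₂ d = Γ₁ d ⊔ hseg false Λ e s)
    (hpl : ∀ q ∈ qs, Placed Γ₂ U₂ D Λ Yt T₁ T₂ yl y₁ s1 q)
    (hqn : ∀ q ∈ qs, q.X ∉ U₁ true ∧ q.g ∉ U₁ true)
    (hfi : ∀ f ∈ fanF ow (d :: be), Filled G Γ₂ (J f))
    (hch : List.IsChain (Ov Γ₂) (d :: be)) (hov : ∀ q ∈ be, Ov Γ₂ q ow)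
    (hlv : (d :: be).getLast? = some lv) (hlb : lv ∈ be) (hq : ∃ q ∈ qs, q.v = lv ∧
      (q.k = Kind.conn ∨ q.k = Kind.tail))
    (he' : e' < X0) (hL : LineOK Γ₂ D ow Λ lv lc' c0' e' R lo' hi s0' s1)
    (hyl : B₁ < yl) (hΛ : Λ < yl) (hy1 : y₁ < T₁) (hTT : T₁ < T₂)
    (hcl : Closed G (fun w C => (w = lv → Ext Λ e' C) ∧ (w ≠ lv → IsPath3 C)) J Ex Γ₂ U₂ (D ⊓ (nl U₂ ⊔ band yl T₁)) F₁
      (CK J a0 N₁ L₁ d be F₁)) :
    ∃ Γ' U' lv lc' c0' e' lo' s0' up, (d :: be).getLast? = some lv ∧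
      Step G Γ U (D ⊓ (lineD U Λ Xd c0 X0 lo hi s0 s1 ⊔ band B T₁))
        {v | v ∈ KSet J (lN W a0 L d be ++ [z]) F W L ∨ v ∈ d :: be ∨
          ∃ f ∈ fanF ow (d :: be), v ∈ J f} Γ' U' ∧
      LineOK Γ' D ow Λ lv lc' c0' e' R lo' hi s0' s1 ∧ e' < X0 ∧
      (∀ v, v ∈ KSet J (lN W a0 L d be ++ [z]) F W L ∨ v ∈ d :: be ∨
          (∃ f ∈ fanF ow (d :: be), v ∈ J f) → v ≠ lv → IsPath3 (Γ' v)) ∧
      Ext Λ e' (Γ' lv) ∧ (∀ f ∈ F ∪ fanF ow (d :: be), Filled G Γ' (J f)) ∧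
      (∀ f ∈ F ∪ fanF ow (d :: be), ∀ p ∈ f, ∀ q ∈ f, p ≠ q → Rz Ex Γ' p q) ∧
      (be ≠ [] → SW Γ' D {lv} true up T₁ T₂ ∧ Xd < up ∧ up < X0 ∧ up ∉ U true) := by
  obtain ⟨Γ₃, U₃, h3, hP3, hF3, hR3⟩ := hcl
  have hFs : fanF ow (d :: be) ⊆ Fs := CD6_fan (G := G) hln
  have hdK : ∀ v, v = d ∨ v ∈ be → v ∉ KSet J (lN W a0 L d be ++ [z]) F W L :=
    fun v hv => CD7_K0 hc hr hv
  have hfK : ∀ f ∈ fanF ow (d :: be), ∀ v ∈ J f, v ∉ KSet J (lN W a0 L d be ++ [z]) F W L :=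
    fun f hf v hv => CD7_fan hc hr (hFs hf) (fun h => Finset.disjoint_left.1 hlF h hf) hv
  have hnJ : ∀ f ∈ Fs, ∀ v, v = d ∨ v ∈ be → v ∉ J f := fun f hf v hv => CD7_notJ hc hr hf hv
  have hUU1 : ∀ o, U o ⊆ U₁ o := hp.step.sub
  have hUU2 : ∀ o, U o ⊆ U₂ o := fun o => (hUU1 o).trans (h2.sub o)
  have hΛU : Λ ∈ U₂ false := hUU2 _ (hzn.mem (Set.mem_insert ow {d}) hwd.lines hce)
  -- vertices
  have g1 : ∀ v, v ∈ KSet J (lN W a0 L d be ++ [z]) F W L →
      ¬ (v = d ∨ v ∈ be ∨ ∃ f ∈ fanF ow (d :: be), v ∈ J f) := by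
    rintro v hv (h | h | ⟨f, hf, h⟩)
    · exact hdK v (Or.inl h) hv
    · exact hdK v (Or.inr h) hv
    · exact hfK f hf v h hv
  have g2 : ∀ v, v ∈ CK J a0 N₁ L₁ d be F₁ →
      v ∈ KSet J (lN W a0 L d be ++ [z]) F W L ∨ v ∈ be := by
    rintro v (h | h)
    · exact Or.inl (hp.hK h)
    · exact Or.inr h
  have hndb : d ∉ be := by
    have h4 : (rv (N₁ :: L₁) ++ [d] ++ be ++ [a0]).Nodup := hr1.disc.nodup
    have h5 := (List.nodup_append.1 h4).1
    intro h6
    exact (List.nodup_append.1 h5).2.2 d (by simp) d h6 rfl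
  have g3 : d ∉ CK J a0 N₁ L₁ d be F₁ := by
    intro h
    rcases g2 d h with h | h
    · exact hdK d (Or.inl rfl) h
    · exact hndb h
  have g4 : ∀ f ∈ fanF ow (d :: be), ∀ v ∈ J f, v ∉ CK J a0 N₁ L₁ d be F₁ := by
    intro f hf v hv h
    rcases g2 v h with h | h
    · exact hfK f hf v hv h
    · exact hnJ f (hFs hf) v (Or.inr h) hv
  -- steps
  have hst : Step G Γ U (D ⊓ (lineD U Λ Xd c0 X0 lo hi s0 s1 ⊔ band B T₁))
      {v | v ∈ KSet J (lN W a0 L d be ++ [z]) F W L ∨ v ∈ d :: be ∨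
        ∃ f ∈ fanF ow (d :: be), v ∈ J f} Γ₃ U₃ := by
    refine Step.trans (Step.trans (hp.step.weaken ?_ ?_) (h2.weaken ?_ ?_)) (h3.weaken ?_ ?_)
    · intro o l x hx
      refine ⟨hD₁ o l hx, ?_⟩
      rcases h5 o l x hx with h | h
      · exact Or.inl (Or.inl (Or.inl (Or.inl h)))
      · exact Or.inr h
    · exact fun v hv => Or.inl hv
    · rintro o l x ⟨hx, hx2⟩
      refine ⟨hx, Or.inl ?_⟩
      rcases hx2 with ((h | h) | h) | h
      · exact Or.inl (Or.inl (Or.inl fun h6 => h (hUU1 o h6)))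
      · exact Or.inl (Or.inl (Or.inr h))
      · exact Or.inl (Or.inr h)
      · exact Or.inr h
    · rintro v (h | h | h)
      · exact Or.inr (Or.inl (h ▸ List.mem_cons_self))
      · exact Or.inr (Or.inl (List.mem_cons_of_mem _ h))
      · exact Or.inr (Or.inr h)
    · rintro o l x ⟨hx, hx2⟩
      refine ⟨hx, ?_⟩
      rcases hx2 with h | h
      · exact Or.inl (Or.inl (Or.inl (Or.inl fun h6 => h (hUU2 o h6))))
      · refine Or.inr ?_
        cases o with
        | false => exact ⟨(hBB.trans hyl.le).trans h.1, h.2⟩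
        | true => exact ⟨(hBB.trans hyl.le).trans h.1, h.2⟩
    · intro v hv
      rcases g2 v hv with h | h
      · exact Or.inl h
      · exact Or.inr (Or.inl (List.mem_cons_of_mem _ h))
  have hgr := hst.grow
  -- the owner overlaps everything
  have how : ∀ v ∈ d :: be, Rz Ex Γ₃ ow v := by
    intro v hv
    rcases List.mem_cons.1 hv with rfl | hv
    · refine Or.inr (Ov.mono hgr ?_)
      obtain ⟨x, e1, e2⟩ := exists_between hce
      have e3 := (hzn x e1 e2).2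
      exact ⟨false, Λ, x, (e3 ow).2 (Set.mem_insert _ _),
        (e3 v).2 (Set.mem_insert_of_mem _ (Set.mem_singleton _))⟩
    · exact Or.inr (Ov.mono h3.grow (hov v hv).symm)
  -- the clean part of the last column
  have hup : ∃ up, SW Γ₃ D {lv} true up T₁ T₂ ∧ Xd < up ∧ up < X0 ∧ up ∉ U true := by
    obtain ⟨q, hq1, hq2, hq3⟩ := hq
    obtain ⟨e1, e2, e3⟩ := CoreG2_ordP_mem ho hq1
    have hq4 := hpl q hq1
    have hs1 : s1 < T₁ := hs.trans_lt (hBY.trans hYT)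
    rcases hq3 with hk | hk
    · refine ⟨q.X, ?_, lt_of_le_of_lt hXe (e1.trans e2), e3, fun h => (hqn q hq1).1 (hUU1 _ h)⟩
      have e4 : SW Γ₂ D {lv} true q.X T₁ T₂ := by
        intro x hx hx'
        refine ⟨(hq4.lX x (hs1.trans hx).le).1, fun v => ⟨fun hv => ?_, fun hv => ?_⟩⟩
        · exact ((hq4.lX x (hs1.trans hx).le).2 v hv).trans hq2
        · rw [Set.mem_singleton_iff] at hv
          rw [hv, ← hq2, hq4.cov]
          unfold Pl.cov
          rw [hk]
          refine Or.inr ⟨rfl, rfl, ?_, ?_⟩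
          · rw [min_eq_left (hy1.trans hTT).le]
            exact hy1.trans hx
          · rw [max_eq_right (hy1.trans hTT).le]
            exact hx'
      refine e4.grow h3.grow ?_
      rintro x hx hx' ⟨-, h | h⟩
      · exact h hq4.hX
      · exact absurd h.2 (not_le.2 hx)
    · refine ⟨q.g, ?_, lt_of_le_of_lt hXe e1, e2.trans e3, fun h => (hqn q hq1).2 (hUU1 _ h)⟩
      have e4 : SW Γ₂ D {lv} true q.g T₁ T₂ := by
        intro x hx hx'
        refine ⟨(hq4.lg x (hs1.trans hx).le).1, fun v => ⟨fun hv => ?_, fun hv => ?_⟩⟩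
        · exact ((hq4.lg x (hs1.trans hx).le).2 v hv).trans hq2
        · rw [Set.mem_singleton_iff] at hv
          rw [hv, ← hq2, hq4.cov]
          unfold Pl.cov
          rw [hk]
          refine Or.inr ⟨rfl, rfl, ?_, ?_⟩
          · rw [min_eq_left hTT.le]
            exact hx
          · rw [max_eq_right hTT.le]
            exact hx'
      refine e4.grow h3.grow ?_
      rintro x hx hx' ⟨-, h | h⟩
      · exact h hq4.hg
      · exact absurd h.2 (not_le.2 hx)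
  obtain ⟨up, hup1, hup2, hup3, hup4⟩ := hup
  refine ⟨Γ₃, U₃, lv, lc', c0', e', lo', s0', up, hlv, hst, ?_, he', ?_, ?_, ?_, ?_,
    fun _ => ⟨hup1, hup2, hup3, hup4⟩⟩
  · -- the line
    refine hL.grow h3.grow ?_ ?_ ?_
    · rintro x hx hx' ⟨-, h | h⟩
      · exact h hΛU
      · exact absurd h.1 (not_le.2 hΛ)
    · rintro x hx hx' ⟨-, h | h⟩
      · exact h hΛU
      · exact absurd h.1 (not_le.2 hΛ)
    · rintro x hx hx' ⟨-, h | h⟩
      · exact h (hL.strip.mem (Set.mem_singleton lv) h2.wd.lines hL.h7)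
      · exact absurd h.1 (not_le.2 (hx'.trans_le (hs.trans (hBB.trans hyl.le))))
  · -- finished vertices
    intro v hv hvl
    by_cases hv1 : v ∈ CK J a0 N₁ L₁ d be F₁
    · exact (hP3 v hv1).2 hvl
    · rw [h3.grow.eq hv1]
      rcases hv with hv | hv | ⟨f, hf, hv⟩
      · rw [h2.grow.eq (g1 v hv)]
        exact hp.fin v hv fun h => hv1 (Or.inl h)
      · rcases List.mem_cons.1 hv with rfl | hv
        · rw [hd2, hp.step.grow.eq (hdK v (Or.inl rfl))]
          exact (hext.extend hes).path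
        · exact absurd (Or.inr hv) hv1
      · exact (hfi f hf v hv).1
  · exact (hP3 lv (Or.inr hlb)).1 rfl
  · -- filled faces
    intro f hf
    rcases Finset.mem_union.1 hf with hf | hf
    · by_cases hf1 : f ∈ F₁
      · exact hF3 f hf1
      · refine Filled.mono h3.grow (Filled.mono h2.grow (hp.filled f hf hf1) ?_) ?_
        · rintro v hv (h | h | ⟨g, hg, h⟩)
          · exact hnJ f (hr.sub hf) v (Or.inl h) hv
          · exact hnJ f (hr.sub hf) v (Or.inr h) hv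
          · have hne : f ≠ g := by
              rintro rfl
              exact Finset.disjoint_left.1 hlF hf hg
            exact Finset.disjoint_left.1 (hc.disj f (hr.sub hf) g (hFs hg) hne) hv h
        · rintro v hv (h | h)
          · exact hp.sepf f hf hf1 v hv h
          · exact hnJ f (hr.sub hf) v (Or.inr h) hv
    · exact Filled.mono h3.grow (hfi f hf) (g4 f hf)
  · -- realized pairs
    intro f hf
    rcases Finset.mem_union.1 hf with hf | hf
    · by_cases hf1 : f ∈ F₁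
      · exact hR3 f hf1
      · have hroot : Rz Ex Γ₃ N₁.v a0 := by
          have e1 : Disc (N₁.v :: ((rv L₁ ++ [d] ++ be) ++ [a0])) F₁ := hr1.disc
          obtain ⟨e2, g, hg, e3, e4⟩ := e1.root_adj (by simp)
          exact hR3 g hg _ e3 _ e4 e2
        intro u hu v hv huv
        rcases hp.real f hf hf1 u hu v hv huv with h | ⟨h, h'⟩ | ⟨h, h'⟩
        · exact Rz.mono h3.grow (Rz.mono h2.grow h)
        · rw [h, h']
          exact Rz.symm hE hroot
        · rw [h, h']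
          exact hroot
    · obtain ⟨p, a, b, t, e1, rfl⟩ := DiscH_mem_fanF.1 hf
      have ha : a ∈ d :: be := by rw [e1]; simp
      have hb : b ∈ d :: be := by rw [e1]; simp
      refine CD1_pairs3 (fun u v h => Rz.symm hE h) (how a ha) (how b hb) ?_
      rw [e1] at hch
      exact Or.inr (Ov.mono h3.grow (List.isChain_append_cons_cons.1 hch).2.1)

end EPG26
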