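import Pool.Agent.W_26e041_h39.CD7

/-!
The two cases of the core (MP_26e041_co).
-/

namespace EPG26

variable {V : Type*} [DecidableEq V]

theorem CD8_split {X bt rest : List V} {a c : V} (h : X ++ [a] = bt ++ c :: rest) :
    ∃ ql, X = bt ++ ql ∧ c :: rest = ql ++ [a] := by
  have hne : c :: rest ≠ [] := List.cons_ne_nil _ _
  have e1 := List.dropLast_append_getLast hne
  have e2 : X ++ [a] = (bt ++ (c :: rest).dropLast) ++ [(c :: rest).getLast hne] := by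
    rw [List.append_assoc, e1]
    exact h
  obtain ⟨e3, e4⟩ := List.append_inj' e2 rfl
  refine ⟨(c :: rest).dropLast, e3, ?_⟩
  have e5 : a = (c :: rest).getLast hne := by simpa using e4
  rw [e5]
  exact e1.symm

theorem CD8_kinds {k : Kind} {bt : List V} {qa : List (Pl V)}
    (h : qa.map (fun q => (q.v, q.k)) = bt.map (fun v => (v, k))) :
    qa.map Pl.v = bt ∧ ∀ p ∈ qa, p.k = k := by
  induction qa generalizing bt with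
  | nil =>
    cases bt with
    | nil => exact ⟨rfl, fun p hp => absurd hp List.not_mem_nil⟩
    | cons b t => exact absurd h (by simp)
  | cons q t ih =>
    cases bt with
    | nil => exact absurd h (by simp)
    | cons b t' =>
      simp only [List.map_cons, List.cons.injEq, Prod.mk.injEq] at h
      obtain ⟨⟨e1, e2⟩, e3⟩ := h
      obtain ⟨e4, e5⟩ := ih e3
      refine ⟨by rw [List.map_cons, e1, e4], fun p hp => ?_⟩
      rcases List.mem_cons.1 hp with rfl | hp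
      · exact e2
      · exact e5 p hp

theorem CD8_chain {Ex : V → V → Prop} {Γ : Dr V} {d a0 lv : V} {be : List V}
    (h : List.IsChain (Ov Γ) (d :: be)) (hlv : (d :: be).getLast? = some lv) (hx : Ex lv a0) :
    List.IsChain (Rz Ex Γ) (d :: be ++ [a0]) := by
  rw [List.isChain_append]
  refine ⟨h.imp fun _ _ e => Or.inr e, List.isChain_singleton _, ?_⟩
  intro x hx' y hy
  rw [hlv] at hx'
  have e1 : lv = x := by simpa using hx'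
  have e2 : a0 = y := by simpa using hy
  rw [← e1, ← e2]
  exact Or.inl hx

theorem CD8_mem {be : List V} {d lv : V} (h : (d :: be).getLast? = some lv) (hbe : be ≠ []) :
    lv ∈ be := by
  have e1 : (d :: be).getLast? = be.getLast? := by
    cases be with
    | nil => exact absurd rfl hbe
    | cons b t => rfl
  rw [e1] at h
  exact List.mem_of_getLast? h

theorem CD_caseA {G : SimpleGraph V} {T : Finset V} {Fs : Finset (Finset V)}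
    {J : Finset V → Finset V} {Ex : V → V → Prop} (hc : Ctx G T Fs J)
    (hE : ∀ u v, Ex u v → Ex v u) {Γ : Dr V} {U : Bool → Finset ℚ} {D : Cov}
    {A B : ℚ} {N₁ : Rec V} {L : List (Rec V)} {d : V} {Xd Y0 : ℚ} {a0 : V} {X0 T₁ Λ : ℚ}
    {b₁ : V} {be : List V} {F : Finset (Finset V)} {l₀ l₁ : ℚ}
    (h : CR G T Fs J Ex Γ U D A B N₁ L d Xd Y0 a0 X0 T₁ Λ (b₁ :: be) F l₀ l₁)
    {ow : V} {c0 e R lo hi s0 s1 T₂ : ℚ}
    (hL : LineOK Γ D ow Λ d Xd c0 e R lo hi s0 s1)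
    (hs : s1 ≤ B) (he : e < X0) (hR : X0 ≤ R) (hT : T₁ < T₂)
    (hln : List.IsChain (fun p q => ({ow, p, q} : Finset V) ∈ Fs) (d :: b₁ :: be))
    (hlF : Disjoint F (fanF ow (d :: b₁ :: be))) (hnd : (ow :: d :: b₁ :: be).Nodup)
    (hdo : G.Adj d ow)
    (hun : ∀ p ∈ b₁ :: be, Undrawn Γ p)
    (hJ : ∀ f ∈ fanF ow (d :: b₁ :: be), ∀ q ∈ J f, Undrawn Γ q)
    (hch : Chless F (d :: (b₁ :: be) ++ [a0]))
    (hEx : ∀ lv, (d :: b₁ :: be).getLast? = some lv → Ex lv a0)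
    (hf : ({d, lastv (N₁ :: L) d, b₁} : Finset V) ∈ F) :
    ∃ (Γ' : Dr V) (U' : Bool → Finset ℚ) (qs : List (Pl V)) (s : ℚ) (lv : V)
      (lc' c0' e' lo' s0' Yt yl y₁ : ℚ), OrdP e qs X0 ∧
      Step G Γ U (D ⊓ lineD U Λ Xd c0 X0 lo hi s0 s1)
        {q | q = d ∨ q ∈ b₁ :: be ∨ ∃ f ∈ fanF ow (d :: b₁ :: be), q ∈ J f} Γ' U' ∧
      e ≤ s ∧ Γ' d = Γ d ⊔ hseg false Λ e s ∧
      (∀ q ∈ qs, Placed Γ' U' D Λ Yt T₁ T₂ yl y₁ s1 q) ∧ (∀ q ∈ qs, q.X ∉ U true ∧ q.g ∉ U true) ∧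
      (∀ f ∈ fanF ow (d :: b₁ :: be), Filled G Γ' (J f)) ∧
      List.IsChain (Ov Γ') (d :: b₁ :: be) ∧ (∀ q ∈ b₁ :: be, Ov Γ' q ow) ∧
      (d :: b₁ :: be).getLast? = some lv ∧
      (∃ q ∈ qs, q.v = lv ∧ (q.k = Kind.conn ∨ q.k = Kind.tail)) ∧ e' < X0 ∧
      LineOK Γ' D ow Λ lv lc' c0' e' R lo' hi s0' s1 ∧ B < yl ∧ Λ < yl ∧ y₁ < T₁ ∧
      Closed G (fun w C => (w = lv → Ext Λ e' C) ∧ (w ≠ lv → IsPath3 C)) J Ex Γ' U'
        (D ⊓ (nl U' ⊔ band yl T₁)) F (CK J a0 N₁ L d (b₁ :: be) F) := by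
  obtain ⟨yl, hyl1, hyl2⟩ := exists_between (show B < N₁.g from h.cin.n.ordB.1)
  obtain ⟨y₁, hy1, hy2⟩ := exists_between h.cin.YT
  have hsy : s1 ≤ yl := hs.trans hyl1.le
  have hΛy : Λ < yl := lt_of_le_of_lt hL.h6 (hL.h7.trans_le hsy)
  have hps : ((b₁ :: be).map fun v => (v, Kind.conn)).map Prod.fst = b₁ :: be := by
    rw [List.map_map]
    exact List.map_id _
  obtain ⟨Γ', U', qs, s, lv, lc', c0', e', lo', s0', f1, f2, f3, f4, f5, f6, f7, f8, f9, f10,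
    f11, f12, f13, f14, f15, f16⟩ := CD_place hc h hL hps (List.cons_ne_nil _ _) hs he hR le_rfl
      hsy hT (hy2.trans hT) hln hlF hnd hdo hun hJ
  obtain ⟨g1, g2⟩ := CD8_kinds f1
  have hlvb : lv ∈ b₁ :: be := CD8_mem f12 (List.cons_ne_nil _ _)
  obtain ⟨q0, hq0, hq0v⟩ := f14
  refine ⟨Γ', U', qs, s, lv, lc', c0', e', lo', s0', s1, yl, y₁, f2, f4, f5, f6, f7, f8, f9, f10,
    f11, f12, ⟨q0, hq0, hq0v, Or.inl (g2 q0 hq0)⟩, f15, f16, hyl1, hΛy, hy2, ?_⟩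
  refine CD_A hc hE f3 g1 (fun p hp => ⟨f7 p hp, g2 p hp⟩) f2 (hL.h3.trans_lt hL.h4) ?_ ?_ hyl1
    hyl2 hsy hΛy hy1 hy2 hT hch (CD8_chain f10 f12 (hEx lv f12)) hf
  · intro p hp C hC
    refine ⟨fun hpl => ?_, fun _ => hC.path⟩
    rw [← f13 p hp hpl]
    exact hC
  · intro v hv C hC
    exact ⟨fun hvl => absurd (hvl ▸ hlvb) hv, fun _ => hC⟩

theorem CD_caseB {G : SimpleGraph V} {T : Finset V} {Fs : Finset (Finset V)}
    {J : Finset V → Finset V} {Ex : V → V → Prop} (hc : Ctx G T Fs J)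
    (hE : ∀ u v, Ex u v → Ex v u) {Γ : Dr V} {U : Bool → Finset ℚ} {D : Cov}
    {A B : ℚ} {N₁ : Rec V} {L : List (Rec V)} {d : V} {Xd Y0 : ℚ} {a0 : V} {X0 T₁ Λ : ℚ}
    {b₁ : V} {be : List V} {F : Finset (Finset V)} {l₀ l₁ : ℚ}
    (h : CR G T Fs J Ex Γ U D A B N₁ L d Xd Y0 a0 X0 T₁ Λ (b₁ :: be) F l₀ l₁)
    {ow : V} {c0 e R lo hi s0 s1 T₂ : ℚ}
    (hL : LineOK Γ D ow Λ d Xd c0 e R lo hi s0 s1)
    (hs : s1 ≤ B) (he : e < X0) (hR : X0 ≤ R) (hT : T₁ < T₂)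
    (hln : List.IsChain (fun p q => ({ow, p, q} : Finset V) ∈ Fs) (d :: b₁ :: be))
    (hlF : Disjoint F (fanF ow (d :: b₁ :: be))) (hnd : (ow :: d :: b₁ :: be).Nodup)
    (hdo : G.Adj d ow)
    (hun : ∀ p ∈ b₁ :: be, Undrawn Γ p)
    (hJ : ∀ f ∈ fanF ow (d :: b₁ :: be), ∀ q ∈ J f, Undrawn Γ q)
    (hch : Chless F (d :: (b₁ :: be) ++ [a0]))
    (hEx : ∀ lv, (d :: b₁ :: be).getLast? = some lv → Ex lv a0)
    (hf : ({d, lastv (N₁ :: L) d, b₁} : Finset V) ∉ F) :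
    ∃ (Γ' : Dr V) (U' : Bool → Finset ℚ) (qs : List (Pl V)) (s : ℚ) (lv : V)
      (lc' c0' e' lo' s0' Yt yl y₁ : ℚ), OrdP e qs X0 ∧
      Step G Γ U (D ⊓ lineD U Λ Xd c0 X0 lo hi s0 s1)
        {q | q = d ∨ q ∈ b₁ :: be ∨ ∃ f ∈ fanF ow (d :: b₁ :: be), q ∈ J f} Γ' U' ∧
      e ≤ s ∧ Γ' d = Γ d ⊔ hseg false Λ e s ∧
      (∀ q ∈ qs, Placed Γ' U' D Λ Yt T₁ T₂ yl y₁ s1 q) ∧ (∀ q ∈ qs, q.X ∉ U true ∧ q.g ∉ U true) ∧
      (∀ f ∈ fanF ow (d :: b₁ :: be), Filled G Γ' (J f)) ∧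
      List.IsChain (Ov Γ') (d :: b₁ :: be) ∧ (∀ q ∈ b₁ :: be, Ov Γ' q ow) ∧
      (d :: b₁ :: be).getLast? = some lv ∧
      (∃ q ∈ qs, q.v = lv ∧ (q.k = Kind.conn ∨ q.k = Kind.tail)) ∧ e' < X0 ∧
      LineOK Γ' D ow Λ lv lc' c0' e' R lo' hi s0' s1 ∧ B < yl ∧ Λ < yl ∧ y₁ < T₁ ∧
      Closed G (fun w C => (w = lv → Ext Λ e' C) ∧ (w ≠ lv → IsPath3 C)) J Ex Γ' U'
        (D ⊓ (nl U' ⊔ band yl T₁)) F (CK J a0 N₁ L d (b₁ :: be) F) := by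
  obtain ⟨yl, hyl1, hyl2⟩ := exists_between (show B < N₁.g from h.cin.n.ordB.1)
  obtain ⟨y₁, hy0, hy1, hy2⟩ := CD1_between _ _ _ h.cin.n.ordB
  obtain ⟨Yt, hYt1, hYt2⟩ := exists_between hy1
  have hsy : s1 ≤ yl := hs.trans hyl1.le
  have hΛy : Λ < yl := lt_of_le_of_lt hL.h6 (hL.h7.trans_le hsy)
  have hyT : y₁ < T₁ := hy1.trans h.cin.YT
  obtain ⟨nl, hnl⟩ := CD1_lastv L N₁.v
  have hnl2 : rv (N₁ :: L) = nl ++ [lastv (N₁ :: L) d] := hnl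
  have hcomb : NC T Fs (nl ++ [lastv (N₁ :: L) d] ++ [d]) [a0] (b₁ :: be) F := by
    have := h.comb
    rwa [hnl2] at this
  obtain ⟨y, bt, c, rest, FA, FB, k1, k2, k3, k4, k5, k6, k7, k8, k9, k10⟩ :=
    NC.flip1 hc hcomb hch hf
  obtain ⟨ql, k11, k12⟩ := CD8_split k1
  have hps : ((bt.map fun v => (v, Kind.tail)) ++ (ql.map fun v => (v, Kind.conn))).map Prod.fst =
      b₁ :: be := by
    rw [k11, List.map_append, List.map_map, List.map_map]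
    congr 1
    · exact List.map_id _
    · exact List.map_id _
  obtain ⟨Γ', U', qs, s, lv, lc', c0', e', lo', s0', f1, f2, f3, f4, f5, f6, f7, f8, f9, f10,
    f11, f12, f13, f14, f15, f16⟩ := CD_place hc h hL hps (List.cons_ne_nil _ _) hs he hR
      (hs.trans (hy0.trans hYt1).le) hsy hT (hyT.trans hT) hln hlF hnd hdo hun hJ
  obtain ⟨qa, qb, rfl, f1a, f1b⟩ := List.map_eq_append_iff.1 f1
  obtain ⟨g1, g2⟩ := CD8_kinds f1a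
  obtain ⟨g3, g4⟩ := CD8_kinds f1b
  have hlvb : lv ∈ b₁ :: be := CD8_mem f12 (List.cons_ne_nil _ _)
  obtain ⟨q0, hq0, hq0v⟩ := f14
  have hq0k : q0.k = Kind.conn ∨ q0.k = Kind.tail := by
    rcases List.mem_append.1 hq0 with h1 | h1
    · exact Or.inr (g2 q0 h1)
    · exact Or.inl (g4 q0 h1)
  refine ⟨Γ', U', qa ++ qb, s, lv, lc', c0', e', lo', s0', Yt, yl, y₁, f2, f4, f5, f6, f7, f8, f9,
    f10, f11, f12, ⟨q0, hq0, hq0v, hq0k⟩, f15, f16, hyl1, hΛy, hyT, ?_⟩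
  have hcc : topp qb a0 = c := by
    obtain ⟨r, hr⟩ := CD4_topp qb a0
    rw [g3, ← k12] at hr
    exact (List.cons.inj hr).1.symm
  have hrow : nl ++ [lastv (N₁ :: L) d] ++ [d] ++ (b₁ :: be) ++ [a0] =
      lN [] a0 (N₁ :: L) d (bt ++ ql) := by
    rw [← hnl2, k11]
    rfl
  rw [hrow] at k2 k3
  rw [k11] at f3 hlvb ⊢
  have hov := CD8_chain (Ex := Ex) f10 f12 (hEx lv f12)
  rw [k11] at hov
  refine CD_B hc hE f3 g1 g3 (fun p hp => ⟨f7 p (List.mem_append_left _ hp), g2 p hp⟩)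
    (fun p hp => ⟨f7 p (List.mem_append_right _ hp), g4 p hp⟩) f2 (hL.h3.trans_lt hL.h4) ?_ ?_
    hyl1 hyl2 hsy hΛy hy2 hYt1 hYt2 hT hov k2 k3 k4 ?_ k6 k7 ?_ ?_ ?_
  · intro p hp C hC
    refine ⟨fun hpl => ?_, fun _ => hC.path⟩
    rw [← f13 p hp hpl]
    exact hC
  · intro v hv C hC
    exact ⟨fun hvl => absurd (hvl ▸ hlvb) hv, fun _ => hC⟩
  · rw [hcc]
    exact k5
  · rw [hcc]
    exact k8
  · rw [hnl2, ← k12]
    exact k9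
  · rw [hcc, ← k12, hnl2]
    exact k10

theorem CD_case {G : SimpleGraph V} {T : Finset V} {Fs : Finset (Finset V)}
    {J : Finset V → Finset V} {Ex : V → V → Prop} (hc : Ctx G T Fs J)
    (hE : ∀ u v, Ex u v → Ex v u) {Γ : Dr V} {U : Bool → Finset ℚ} {D : Cov}
    {A B : ℚ} {N₁ : Rec V} {L : List (Rec V)} {d : V} {Xd Y0 : ℚ} {a0 : V} {X0 T₁ Λ : ℚ}
    {b₁ : V} {be : List V} {F : Finset (Finset V)} {l₀ l₁ : ℚ}
    (h : CR G T Fs J Ex Γ U D A B N₁ L d Xd Y0 a0 X0 T₁ Λ (b₁ :: be) F l₀ l₁)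
    {ow : V} {c0 e R lo hi s0 s1 T₂ : ℚ}
    (hL : LineOK Γ D ow Λ d Xd c0 e R lo hi s0 s1)
    (hs : s1 ≤ B) (he : e < X0) (hR : X0 ≤ R) (hT : T₁ < T₂)
    (hln : List.IsChain (fun p q => ({ow, p, q} : Finset V) ∈ Fs) (d :: b₁ :: be))
    (hlF : Disjoint F (fanF ow (d :: b₁ :: be))) (hnd : (ow :: d :: b₁ :: be).Nodup)
    (hdo : G.Adj d ow)
    (hun : ∀ p ∈ b₁ :: be, Undrawn Γ p)
    (hJ : ∀ f ∈ fanF ow (d :: b₁ :: be), ∀ q ∈ J f, Undrawn Γ q)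
    (hch : Chless F (d :: (b₁ :: be) ++ [a0]))
    (hEx : ∀ lv, (d :: b₁ :: be).getLast? = some lv → Ex lv a0) :
    ∃ (Γ' : Dr V) (U' : Bool → Finset ℚ) (qs : List (Pl V)) (s : ℚ) (lv : V)
      (lc' c0' e' lo' s0' Yt yl y₁ : ℚ), OrdP e qs X0 ∧
      Step G Γ U (D ⊓ lineD U Λ Xd c0 X0 lo hi s0 s1)
        {q | q = d ∨ q ∈ b₁ :: be ∨ ∃ f ∈ fanF ow (d :: b₁ :: be), q ∈ J f} Γ' U' ∧
      e ≤ s ∧ Γ' d = Γ d ⊔ hseg false Λ e s ∧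
      (∀ q ∈ qs, Placed Γ' U' D Λ Yt T₁ T₂ yl y₁ s1 q) ∧ (∀ q ∈ qs, q.X ∉ U true ∧ q.g ∉ U true) ∧
      (∀ f ∈ fanF ow (d :: b₁ :: be), Filled G Γ' (J f)) ∧
      List.IsChain (Ov Γ') (d :: b₁ :: be) ∧ (∀ q ∈ b₁ :: be, Ov Γ' q ow) ∧
      (d :: b₁ :: be).getLast? = some lv ∧
      (∃ q ∈ qs, q.v = lv ∧ (q.k = Kind.conn ∨ q.k = Kind.tail)) ∧ e' < X0 ∧
      LineOK Γ' D ow Λ lv lc' c0' e' R lo' hi s0' s1 ∧ B < yl ∧ Λ < yl ∧ y₁ < T₁ ∧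
      Closed G (fun w C => (w = lv → Ext Λ e' C) ∧ (w ≠ lv → IsPath3 C)) J Ex Γ' U'
        (D ⊓ (nl U' ⊔ band yl T₁)) F (CK J a0 N₁ L d (b₁ :: be) F) := by
  by_cases hf : ({d, lastv (N₁ :: L) d, b₁} : Finset V) ∈ F
  · exact CD_caseA hc hE h hL hs he hR hT hln hlF hnd hdo hun hJ hch hEx hf
  · exact CD_caseB hc hE h hL hs he hR hT hln hlF hnd hdo hun hJ hch hEx hf

end EPG26
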